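import Pool.Agent.H99.CA.Df
import Pool.Agent.H99.RO.Cnt

/-!
[H99 CA BAD]  (Dense cliques at all scales, MP_8923e7_nt.)  A random sample is rarely full.

Proof.  If `z` is `Full`, with the sets `E j`, choose injections `σ_j : ZMod M → E j` (`|E j| ≥ M`; depending on `E` only).  Then all the factors of
`∏_{q ∈ (ZMod M)^2} ind H (fun j => z j (σ_j (q.1 + j q.2)))` are 1.  For each of the `2^(m b)` choices of `E` (with all `|E j| ≥ M`) the sum of this product over
`z ∈ ∏_(j,a) U j` is `(∏_j |U j|^(b - M))` times the sum of `count_le` (RO/Cnt): the map `z ↦ (z ∘ τ, z off the image of τ)`, `τ (j, a) = (j, σ_j a)`, is a bijection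
of the product sets.  So the number of the full `z` is at most `2^(m b) ∏ |U j|^(b - M) (den^(M^2) + M^2 e) ∏ |U j|^M`, and `0 ≤ den ≤ 1 - p`.
-/

namespace Pool.Agent.H99.CA

open Finset Pool.Agent.H99.RO

open Classical in
private theorem bad_one {V : Type} (m M : ℕ) [hM : Fact M.Prime] (b : ℕ) (U : Fin m → Finset V)
    (σ : Fin m → ZMod M → Fin b) (hσ : ∀ j, Function.Injective (σ j))
    (G : (Fin m × ZMod M → V) → ℝ) (hG : ∀ x, 0 ≤ G x) :
    ∑ z ∈ Fintype.piFinset fun j : Fin m => Fintype.piFinset fun _ : Fin b => U j,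
        G (fun q => z q.1 (σ q.1 q.2)) ≤
      (∏ j, ((U j).card : ℝ) ^ (b - M)) *
        ∑ x ∈ Fintype.piFinset (fun p : Fin m × ZMod M => U p.1), G x := by
  set Z := Fintype.piFinset fun j : Fin m => Fintype.piFinset fun _ : Fin b => U j with hZ
  set X := Fintype.piFinset (fun p : Fin m × ZMod M => U p.1) with hX
  have hmaps : ∀ z ∈ Z, (fun q : Fin m × ZMod M => z q.1 (σ q.1 q.2)) ∈ X := by
    intro z hz
    rw [hZ, Fintype.mem_piFinset] at hz
    rw [hX, Fintype.mem_piFinset]
    intro q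
    exact Fintype.mem_piFinset.1 (hz q.1) _
  rw [← Finset.sum_fiberwise_of_maps_to hmaps, Finset.mul_sum]
  refine Finset.sum_le_sum fun x _ => ?_
  have h1 : ∑ z ∈ Z.filter (fun z => (fun q : Fin m × ZMod M => z q.1 (σ q.1 q.2)) = x),
      G (fun q => z q.1 (σ q.1 q.2)) =
      ((Z.filter fun z => (fun q : Fin m × ZMod M => z q.1 (σ q.1 q.2)) = x).card : ℝ) * G x := by
    rw [← nsmul_eq_mul, ← Finset.sum_const]
    refine Finset.sum_congr rfl fun z hz => ?_
    rw [(Finset.mem_filter.1 hz).2]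
  rw [h1]
  refine mul_le_mul_of_nonneg_right ?_ (hG x)
  have h2 : (Z.filter fun z => (fun q : Fin m × ZMod M => z q.1 (σ q.1 q.2)) = x) ⊆
      Fintype.piFinset fun j : Fin m => Fintype.piFinset fun i : Fin b =>
        if h : ∃ a, σ j a = i then {x (j, h.choose)} else U j := by
    intro z hz
    rw [Finset.mem_filter] at hz
    rw [Fintype.mem_piFinset]
    intro j
    rw [Fintype.mem_piFinset]
    intro i
    split_ifs with h
    · rw [Finset.mem_singleton]
      have h3 := congrFun hz.2 (j, h.choose)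
      simp only at h3
      rw [h.choose_spec] at h3
      exact h3
    · have h3 := hz.1
      rw [hZ, Fintype.mem_piFinset] at h3
      exact Fintype.mem_piFinset.1 (h3 j) i
  have h3 := Finset.card_le_card h2
  rw [Fintype.card_piFinset] at h3
  have h4 : ∀ j : Fin m, (Fintype.piFinset fun i : Fin b =>
      if h : ∃ a, σ j a = i then ({x (j, h.choose)} : Finset V) else U j).card =
      (U j).card ^ (b - M) := by
    intro j
    rw [Fintype.card_piFinset]
    have h5 : ∀ i : Fin b, (if h : ∃ a, σ j a = i then ({x (j, h.choose)} : Finset V) else U j).card =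
        if (∃ a, σ j a = i) then 1 else (U j).card := by
      intro i
      split_ifs with h
      · exact Finset.card_singleton _
      · rfl
    rw [Finset.prod_congr rfl fun i _ => h5 i, Finset.prod_ite, Finset.prod_const_one, one_mul,
      Finset.prod_const]
    congr 1
    have h6 : (Finset.univ.filter fun i : Fin b => ¬ ∃ a, σ j a = i) =
        (Finset.univ.image (σ j))ᶜ := by
      ext i
      simp
    rw [h6, Finset.card_compl, Fintype.card_fin, Finset.card_image_of_injective _ (hσ j),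
      Finset.card_univ, ZMod.card]
  rw [Finset.prod_congr rfl fun j _ => h4 j] at h3
  exact_mod_cast h3

open Classical in
private theorem bad_two {V : Type} (m M : ℕ) [hM : Fact M.Prime] (hmM : m ≤ M) (b : ℕ) (e p : ℝ)
    (he : 0 ≤ e) (H : (Fin m → V) → Prop) (U : Fin m → Finset V) (hreg : Reg e (ind H) U)
    (hden : den (ind H) U ≤ 1 - p) (E : Fin m → Finset (Fin b)) (hE : ∀ j, M ≤ (E j).card) :
    (((Fintype.piFinset fun j : Fin m => Fintype.piFinset fun _ : Fin b => U j).filter
      fun z => ∀ a : Fin m → Fin b, (∀ j, a j ∈ E j) → H (fun j => z j (a j))).card : ℝ) ≤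
      ((1 - p) ^ (M ^ 2) + (M : ℝ) ^ 2 * e) * ∏ j, ((U j).card : ℝ) ^ b := by
  have hσ0 : ∀ j, ∃ s : ZMod M → Fin b, Function.Injective s ∧ ∀ a, s a ∈ E j := by
    intro j
    have h1 : Fintype.card (ZMod M) ≤ Fintype.card (E j) := by
      rw [ZMod.card, Fintype.card_coe]
      exact hE j
    obtain ⟨s⟩ := Function.Embedding.nonempty_of_card_le h1
    exact ⟨fun a => (s a).1, fun a a' h => s.injective (Subtype.ext h), fun a => (s a).2⟩
  choose σ hσ hσE using hσ0
  have hd0 : 0 ≤ den (ind H) U := by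
    unfold den
    exact div_nonneg (Finset.sum_nonneg fun x _ => (ind_bd H x).1)
      (Finset.prod_nonneg fun j _ => Nat.cast_nonneg _)
  let G : (Fin m × ZMod M → V) → ℝ := fun x =>
    ∏ q : ZMod M × ZMod M, ind H (fun j => x (j, q.1 + (j : ℕ) * q.2))
  have hG : ∀ x, 0 ≤ G x := fun x => Finset.prod_nonneg fun q _ => (ind_bd H _).1
  have h1 : (((Fintype.piFinset fun j : Fin m => Fintype.piFinset fun _ : Fin b => U j).filter
      fun z => ∀ a : Fin m → Fin b, (∀ j, a j ∈ E j) → H (fun j => z j (a j))).card : ℝ) ≤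
      ∑ z ∈ Fintype.piFinset fun j : Fin m => Fintype.piFinset fun _ : Fin b => U j,
        G (fun q => z q.1 (σ q.1 q.2)) := by
    rw [Finset.card_filter, Nat.cast_sum]
    refine Finset.sum_le_sum fun z _ => ?_
    by_cases h : ∀ a : Fin m → Fin b, (∀ j, a j ∈ E j) → H (fun j => z j (a j))
    · rw [if_pos h, Nat.cast_one]
      refine le_of_eq (Eq.symm (Finset.prod_eq_one fun q _ => ?_))
      unfold ind
      rw [if_pos]
      exact h _ fun j => hσE j _
    · rw [if_neg h, Nat.cast_zero]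
      exact hG (fun q => z q.1 (σ q.1 q.2))
  refine h1.trans ((bad_one m M b U σ hσ G hG).trans ?_)
  have h2 := count_le m M hmM e he (ind H) (ind_bd H) U hreg
  have hP : 0 ≤ ∏ j, ((U j).card : ℝ) ^ (b - M) := Finset.prod_nonneg fun j _ => by positivity
  refine (mul_le_mul_of_nonneg_left h2 hP).trans ?_
  have h3 : (∏ j, ((U j).card : ℝ) ^ (b - M)) * ((den (ind H) U ^ (M ^ 2) + (M : ℝ) ^ 2 * e) *
      ∏ j, ((U j).card : ℝ) ^ M) = (den (ind H) U ^ (M ^ 2) + (M : ℝ) ^ 2 * e) *
      ∏ j, ((U j).card : ℝ) ^ b := by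
    rw [mul_left_comm, ← Finset.prod_mul_distrib]
    congr 1
    refine Finset.prod_congr rfl fun j _ => ?_
    rw [← pow_add]
    congr 1
    have h4 := hE j
    have h5 := Finset.card_le_univ (E j)
    rw [Fintype.card_fin] at h5
    omega
  rw [h3]
  refine mul_le_mul_of_nonneg_right ?_ (Finset.prod_nonneg fun j _ => by positivity)
  have h4 := pow_le_pow_left₀ hd0 hden (M ^ 2)
  linarith

open Classical in
theorem bad_le {V : Type} (m M : ℕ) [hM : Fact M.Prime] (hmM : m ≤ M) (b : ℕ) (e p : ℝ) (he : 0 ≤ e)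
    (hp1 : p ≤ 1) (H : (Fin m → V) → Prop) (U : Fin m → Finset V) (hreg : Reg e (ind H) U)
    (hden : den (ind H) U ≤ 1 - p) :
    (((Fintype.piFinset fun j : Fin m => Fintype.piFinset fun _ : Fin b => U j).filter
      fun z => Full M H z).card : ℝ) ≤
      2 ^ (m * b) * ((1 - p) ^ (M ^ 2) + (M : ℝ) ^ 2 * e) * ∏ j, ((U j).card : ℝ) ^ b := by
  set Z := Fintype.piFinset fun j : Fin m => Fintype.piFinset fun _ : Fin b => U j with hZ
  have hsub : Z.filter (fun z => Full M H z) ⊆
      (Finset.univ.filter fun E : Fin m → Finset (Fin b) => ∀ j, M ≤ (E j).card).biUnion fun E =>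
        Z.filter fun z => ∀ a : Fin m → Fin b, (∀ j, a j ∈ E j) → H (fun j => z j (a j)) := by
    intro z hz
    rw [Finset.mem_filter] at hz
    obtain ⟨E, hE, hE2⟩ := hz.2
    rw [Finset.mem_biUnion]
    exact ⟨E, Finset.mem_filter.2 ⟨Finset.mem_univ _, hE⟩, Finset.mem_filter.2 ⟨hz.1, hE2⟩⟩
  have hQ : 0 ≤ ((1 - p) ^ (M ^ 2) + (M : ℝ) ^ 2 * e) * ∏ j, ((U j).card : ℝ) ^ b := by
    have h1 : 0 ≤ (1 - p) ^ (M ^ 2) := pow_nonneg (by linarith) _
    have h2 : 0 ≤ ∏ j, ((U j).card : ℝ) ^ b := Finset.prod_nonneg fun j _ => by positivity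
    positivity
  have h1 : ((Z.filter fun z => Full M H z).card : ℝ) ≤
      ∑ E ∈ Finset.univ.filter (fun E : Fin m → Finset (Fin b) => ∀ j, M ≤ (E j).card),
        (((1 - p) ^ (M ^ 2) + (M : ℝ) ^ 2 * e) * ∏ j, ((U j).card : ℝ) ^ b) := by
    refine le_trans (Nat.cast_le.2 ((Finset.card_le_card hsub).trans Finset.card_biUnion_le)) ?_
    push_cast
    refine Finset.sum_le_sum fun E hE => ?_
    exact bad_two m M hmM b e p he H U hreg hden E (Finset.mem_filter.1 hE).2
  refine h1.trans ?_
  rw [Finset.sum_const, nsmul_eq_mul, mul_assoc]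
  refine mul_le_mul_of_nonneg_right ?_ hQ
  have h2 : (Finset.univ.filter fun E : Fin m → Finset (Fin b) => ∀ j, M ≤ (E j).card).card ≤
      2 ^ (m * b) := by
    refine (Finset.card_filter_le _ _).trans ?_
    rw [Finset.card_univ, Fintype.card_fun, Fintype.card_finset, Fintype.card_fin, Fintype.card_fin,
      ← pow_mul, mul_comm b m]
  exact_mod_cast h2

end Pool.Agent.H99.CA
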