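import Pool.Agent.H99.CA.Sml
import Pool.Agent.H99.RO.MgT

/-!
[H99 CA BIG]  (Dense cliques at all scales, MP_8923e7_nt.)  Cliques at all scales `L₀ ≤ L ≤ X^δ`.

Proof.  `L ≤ (log X)^2`: `clq_small` with `A = 2`.  `L > (log X)^2`: `part1 m al e'` (RO/P1) for the densest colour class (`col_class`, RO/MgT), `al = (1 - η)/r`, `e'` small: `13 al/50 - e' ≥ 13/(50 r) - ε`, `e' ≤ ε`.
-/

namespace Pool.Agent.H99.CA

open Finset Filter Pool.Agent.H61.UL

private theorem big_cnt {m r : ℕ} (col : ℕ → Fin r) (X Q : ℕ) (i : Fin r) (A : Finset ℕ)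
    (hA : ∀ p ∈ A, p.Prime ∧ col p = i) (y : Fin m → ℕ) :
    Pool.Agent.H99.RO.cnt (X : ℝ) Q A y ≤ (cm col X Q y : ℝ) := by
  classical
  unfold Pool.Agent.H99.RO.cnt cm
  rw [Nat.floor_natCast, Nat.cast_le]
  apply card_le_card
  intro N hN
  rw [mem_filter] at hN ⊢
  refine ⟨hN.1, fun j => ⟨(hA _ (hN.2 j)).1, fun j' => ?_⟩⟩
  rw [(hA _ (hN.2 j)).2, (hA _ (hN.2 j')).2]

open Classical in
theorem clq_all (hU : BlkU) (m r : ℕ) (hm : 1 ≤ m) (hr : 1 ≤ r) (ε : ℝ) (hε : 0 < ε) :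
    ∃ K Q0 : ℕ, 1 ≤ Q0 ∧ ∀ Q : ℕ, 0 < Q → Q0 ∣ Q → ∃ (c δ : ℝ) (L0 X0 : ℕ), 0 < c ∧ 0 < δ ∧
      ∀ X : ℕ, X0 ≤ X → ∀ L : ℕ, L0 ≤ L → (L : ℝ) ≤ (X : ℝ) ^ δ → ∀ (col : ℕ → Fin r) (U : Finset ℕ),
      U ⊆ Icc 1 L → ε * L ≤ U.card → ∃ S : Finset ℕ, S ⊆ U ∧ (13 / (50 * r) - ε) * (U.card : ℝ) ≤ S.card ∧
        (((Fintype.piFinset fun _ : Fin m => S).filter fun y => (cm col X Q y : ℝ) <
          c * (min 1 ((L : ℝ) / Real.log X)) ^ K * (X / Real.log X ^ m)).card : ℝ) ≤ ε * (L : ℝ) ^ m := by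
  have hr0 : (0 : ℝ) < r := by exact_mod_cast hr
  have hr1 : (1 : ℝ) ≤ r := by exact_mod_cast hr
  obtain ⟨η, hη⟩ : ∃ η : ℝ, η = min (1 / 2) (ε / 2) := ⟨_, rfl⟩
  have hη0 : 0 < η := by
    rw [hη]
    positivity
  have hη1 : η ≤ 1 / 2 := by
    rw [hη]
    exact min_le_left _ _
  have hη2 : η ≤ ε / 2 := by
    rw [hη]
    exact min_le_right _ _
  have hα0 : 0 < (1 - η) / r := div_pos (by linarith) hr0
  have hα1 : (1 - η) / r ≤ 1 := by
    rw [div_le_one hr0]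
    linarith
  obtain ⟨K, Q1, hQ1, H1⟩ := clq_small hU m r hm hr ε hε
  obtain ⟨q, hq, H2⟩ := Pool.Agent.H99.RO.part1 m hm ((1 - η) / r) (ε / 2) hα0 hα1 (by positivity)
  refine ⟨K, Q1 * q, Nat.mul_pos hQ1 hq, fun Q hQ hQQ => ?_⟩
  obtain ⟨c1, L1, X1, hc1, H1⟩ := H1 Q 2 hQ ((Dvd.intro _ rfl).trans hQQ) (by norm_num)
  obtain ⟨c2, C, c', x0, hc2, hC, hc', H2⟩ := H2 Q hQ ((Dvd.intro_left _ rfl).trans hQQ)
  obtain ⟨X2, hX2⟩ := Pool.Agent.H99.RO.col_class r hr η hη0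
  refine ⟨min c1 c2, c', L1, X1 + X2 + ⌈x0⌉₊ + ⌈Real.exp (C + 1)⌉₊, lt_min hc1 hc2, hc',
    fun X hX L hL hLX col U hU1 hU2 => ?_⟩
  have hXa : x0 ≤ X := (Nat.le_ceil _).trans (by exact_mod_cast (by omega : ⌈x0⌉₊ ≤ X))
  have hXb : Real.exp (C + 1) ≤ X :=
    (Nat.le_ceil _).trans (by exact_mod_cast (by omega : ⌈Real.exp (C + 1)⌉₊ ≤ X))
  have hX0 : (0 : ℝ) < X := lt_of_lt_of_le (Real.exp_pos _) hXb
  have hlog : C + 1 ≤ Real.log X := (Real.le_log_iff_exp_le hX0).2 hXb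
  have hlog1 : 1 ≤ Real.log X := by linarith
  have hlog0 : 0 < Real.log X := by linarith
  have hXl : 0 ≤ (X : ℝ) / Real.log X ^ m := by positivity
  have hmin0 : 0 ≤ (min 1 ((L : ℝ) / Real.log X)) ^ K :=
    pow_nonneg (le_min zero_le_one (by positivity)) K
  by_cases hs : (L : ℝ) ≤ Real.log X ^ (2 : ℝ)
  · obtain ⟨S, hS1, hS2, hS3⟩ := H1 X (by omega) L hL hs col U hU1 hU2
    refine ⟨S, hS1, hS2, le_trans ?_ hS3⟩
    rw [Nat.cast_le]
    apply card_le_card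
    intro y hy
    rw [mem_filter] at hy ⊢
    refine ⟨hy.1, lt_of_lt_of_le hy.2 ?_⟩
    exact mul_le_mul_of_nonneg_right (mul_le_mul_of_nonneg_right (min_le_left _ _) hmin0) hXl
  · rw [not_le] at hs
    have hs2 : Real.log (X : ℝ) ^ (2 : ℕ) < (L : ℝ) := by
      have e : Real.log (X : ℝ) ^ (2 : ℝ) = Real.log (X : ℝ) ^ (2 : ℕ) := by
        rw [← Real.rpow_natCast]
        norm_num
      rwa [e] at hs
    obtain ⟨i, hi⟩ := hX2 X (by omega) col
    have hLC : C * Real.log X ≤ L := by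
      have h9 : C * Real.log X ≤ Real.log X * Real.log X :=
        mul_le_mul_of_nonneg_right (by linarith) hlog0.le
      rw [← pow_two] at h9
      exact h9.trans hs2.le
    obtain ⟨A, hAd⟩ : ∃ A : Finset ℕ, A = (Icc 1 X).filter fun p => p.Prime ∧ col p = i := ⟨_, rfl⟩
    rw [← hAd] at hi
    have hA1 : ∀ p ∈ A, p.Prime ∧ (p : ℝ) ≤ X := by
      intro p hp
      rw [hAd, mem_filter, mem_Icc] at hp
      exact ⟨hp.2.1, by exact_mod_cast hp.1.2⟩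
    have hA2 : ∀ p ∈ A, p.Prime ∧ col p = i := by
      intro p hp
      rw [hAd, mem_filter, mem_Icc] at hp
      exact hp.2
    have hL0 : (0 : ℝ) ≤ L := Nat.cast_nonneg _
    obtain ⟨S, hS1, hS2, hS3⟩ := H2 X hXa A hA1 hi L hLC hLX U hU1 (by nlinarith)
    refine ⟨S, hS1, le_trans ?_ hS2, ?_⟩
    · refine mul_le_mul_of_nonneg_right ?_ (Nat.cast_nonneg _)
      have e1 : 13 * ((1 - η) / r) / 50 = 13 / (50 * r) - η * (13 / (50 * r)) := by
        field_simp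
      have e2 : (13 : ℝ) / (50 * r) ≤ 1 := by
        rw [div_le_one (by positivity)]
        linarith
      have e3 : η * (13 / (50 * r)) ≤ η * 1 := mul_le_mul_of_nonneg_left e2 hη0.le
      rw [e1]
      linarith
    · have hstep : (((Fintype.piFinset fun _ : Fin m => S).filter fun y => (cm col X Q y : ℝ) <
          min c1 c2 * (min 1 ((L : ℝ) / Real.log X)) ^ K * (X / Real.log X ^ m)).card : ℝ) ≤
          (((Fintype.piFinset fun _ : Fin m => S).filter fun y =>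
            Pool.Agent.H99.RO.cnt (X : ℝ) Q A y < c2 * X / Real.log X ^ m).card : ℝ) := by
        rw [Nat.cast_le]
        apply card_le_card
        intro y hy
        rw [mem_filter] at hy ⊢
        refine ⟨hy.1, lt_of_le_of_lt (big_cnt col X Q i A hA2 y) (lt_of_lt_of_le hy.2 ?_)⟩
        have h1 : (min 1 ((L : ℝ) / Real.log X)) ^ K ≤ 1 :=
          pow_le_one₀ (le_min zero_le_one (by positivity)) (min_le_left _ _)
        have h2 : min c1 c2 * (min 1 ((L : ℝ) / Real.log X)) ^ K ≤ c2 * 1 :=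
          mul_le_mul (min_le_right _ _) h1 hmin0 hc2.le
        rw [mul_one] at h2
        rw [mul_div_assoc]
        exact mul_le_mul_of_nonneg_right h2 hXl
      refine hstep.trans (hS3.trans ?_)
      exact mul_le_mul_of_nonneg_right (by linarith) (by positivity)

end Pool.Agent.H99.CA
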