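import Pool.Agent.H99.CA.Tup
import Pool.Agent.H21.GC.BoxCount
import Pool.Agent.H21.GC.NonInj

/-!
[H99 CA BOX]  (Dense cliques at all scales, MP_8923e7_nt.)  The box theorem.

Proof.  As `k_box` in H21/GC/KBox: `clq_tup` for `V = {u // u ∈ U}` (`|V| ≥ ε T`; the hypothesis for `S ⊆ U` with `ε T^m` implies that for `V`, as `|V| ≤ T`), so at least `κ (ε T)^B ≥ κ (ε/2)^B (T+1)^B` of the
`z : Fin B → Fin (T + 1)` have all values in `U` and the property; `box_count B s` and `inj_part B s (T + 1)`.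
-/

namespace Pool.Agent.H99.CA

open Finset

open Classical in
theorem clq_box (m : ℕ) (hm : 1 ≤ m) (ρ eps : ℝ) (hρ : 0 < ρ) (hρ1 : ρ ≤ 1) (heps : 0 < eps) :
    ∃ (η : ℝ) (B : ℕ), 0 < η ∧ m ≤ B ∧ ∀ s : ℕ, 1 ≤ s → ∃ δ : ℝ, 0 < δ ∧ ∃ T₀ : ℕ,
      ∀ T : ℕ, T₀ ≤ T → ∀ U : Finset ℕ, U ⊆ Icc 1 T → eps * T ≤ U.card → ∀ H : (Fin m → ℕ) → Prop,
      (∀ S : Finset ℕ, S ⊆ U → (ρ - eps) * (U.card : ℝ) ≤ S.card → eps * (T : ℝ) ^ m <
        (((Fintype.piFinset fun _ : Fin m => S).filter fun y => ¬ H y).card : ℝ)) →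
      δ * (T : ℝ) ^ (B * s) ≤ ((univ.filter (fun V : Fin B → Fin s → Fin (T + 1) =>
        (∀ i j i' j', V i j = V i' j' → i = i' ∧ j = j') ∧ (∀ i j, (V i j : ℕ) ∈ U) ∧
        ∀ E : Finset (Fin B), (ρ - η) * B ≤ E.card → ∀ φ : Fin B → Fin s,
          ∃ j : Fin m → Fin B, (∀ i, j i ∈ E) ∧ Function.Injective j ∧
            ¬ H (fun i => (V (j i) (φ (j i)) : ℕ)))).card : ℝ) := by
  obtain ⟨η, κ, B, n0, hη, hκ, hmB, hB⟩ := clq_tup m hm ρ eps hρ hρ1 heps
  refine ⟨η, B, hη, hmB, fun s hs => ?_⟩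
  set c : ℝ := κ * (eps / 2) ^ B with hc
  have hc0 : 0 < c := by positivity
  obtain ⟨κ', hκ'⟩ : ∃ κ' : ℝ, κ' = c ^ (s ^ B) := ⟨_, rfl⟩
  have hκ'0 : 0 < κ' := by rw [hκ']; positivity
  obtain ⟨T₂, hT₂⟩ := exists_nat_gt (2 * ((B : ℝ) * s) ^ 2 / κ')
  obtain ⟨T₁, hT₁⟩ := exists_nat_gt ((n0 : ℝ) / eps)
  refine ⟨κ' / 2, by positivity, T₁ + T₂ + 1, fun T hT U hU hUc H hH => ?_⟩
  have hT1 : (1 : ℝ) ≤ T := by exact_mod_cast (by omega : 1 ≤ T)
  have hUT : U.card ≤ T := by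
    have := card_le_card hU
    rwa [Nat.card_Icc, Nat.add_sub_cancel] at this
  have hVc : Fintype.card {u : ℕ // u ∈ U} = U.card := Fintype.card_coe U
  have hn0 : n0 ≤ Fintype.card {u : ℕ // u ∈ U} := by
    rw [hVc]
    have h1 : (n0 : ℝ) ≤ U.card := by
      rw [div_lt_iff₀ heps] at hT₁
      have h2 : (T₁ : ℝ) ≤ T := by exact_mod_cast (by omega : T₁ ≤ T)
      nlinarith
    exact_mod_cast h1
  have h1 := hB {u : ℕ // u ∈ U} hn0 (fun y => H fun i => (y i : ℕ)) (by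
    intro S hS
    rw [hVc] at hS ⊢
    have h2 := hH (S.map (Function.Embedding.subtype _)) (by
      intro u hu
      rw [mem_map] at hu
      obtain ⟨v, _, rfl⟩ := hu
      exact v.2) (by rw [card_map]; exact hS)
    have h3 : (((Fintype.piFinset fun _ : Fin m => S.map (Function.Embedding.subtype _)).filter
        fun y => ¬ H y).card : ℝ) ≤ (((Fintype.piFinset fun _ : Fin m => S).filter
        fun y => ¬ H fun i => (y i : ℕ)).card : ℝ) := by
      have h4 : ((Fintype.piFinset fun _ : Fin m => S.map (Function.Embedding.subtype _)).filter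
          fun y => ¬ H y) ⊆ (((Fintype.piFinset fun _ : Fin m => S).filter
          fun y => ¬ H fun i => (y i : ℕ))).image fun y i => (y i : ℕ) := by
        intro y hy
        rw [mem_filter, Fintype.mem_piFinset] at hy
        rw [mem_image]
        have h5 : ∀ i, ∃ v ∈ S, (v : ℕ) = y i := by
          intro i
          have := hy.1 i
          rw [mem_map] at this
          exact this
        choose v hv hv' using h5
        refine ⟨v, ?_, funext hv'⟩
        rw [mem_filter, Fintype.mem_piFinset]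
        refine ⟨hv, ?_⟩
        have h6 : (fun i => (v i : ℕ)) = y := funext hv'
        rw [h6]
        exact hy.2
      exact_mod_cast (card_le_card h4).trans card_image_le
    have h4 : eps * (U.card : ℝ) ^ m ≤ eps * (T : ℝ) ^ m := by
      apply mul_le_mul_of_nonneg_left _ heps.le
      exact pow_le_pow_left₀ (Nat.cast_nonneg _) (by exact_mod_cast hUT) _
    exact lt_of_le_of_lt h4 (h2.trans_le h3))
  rw [hVc] at h1
  have hcT : (Fintype.card (Fin (T + 1)) : ℝ) = ((T + 1 : ℕ) : ℝ) := by rw [Fintype.card_fin]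
  have h2 := Pool.Agent.H21.GC.box_count B s (fun z : Fin B → Fin (T + 1) =>
    (∀ i, (z i : ℕ) ∈ U) ∧ ∀ E : Finset (Fin B), (ρ - η) * B ≤ E.card →
      ∃ j : Fin m → Fin B, (∀ i, j i ∈ E) ∧ Function.Injective j ∧
        ¬ H (fun i => (z (j i) : ℕ))) c hc0.le (by
      rw [hcT]
      have h3 : c * ((T + 1 : ℕ) : ℝ) ^ B ≤ κ * (U.card : ℝ) ^ B := by
        rw [hc, mul_assoc, ← mul_pow]
        apply mul_le_mul_of_nonneg_left _ hκ.le
        apply pow_le_pow_left₀ (by positivity)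
        push_cast
        nlinarith
      refine h3.trans (h1.trans ?_)
      have hlt : ∀ v : {u : ℕ // u ∈ U}, (v : ℕ) < T + 1 := by
        intro v
        have := hU v.2
        rw [mem_Icc] at this
        omega
      have h4 : (univ.filter fun z : Fin B → {u : ℕ // u ∈ U} =>
          ∀ E : Finset (Fin B), (ρ - η) * B ≤ E.card → ∃ j : Fin m → Fin B, (∀ i, j i ∈ E) ∧
          Function.Injective j ∧ ¬ H (fun i => (z (j i) : ℕ))).card ≤
          (univ.filter fun z : Fin B → Fin (T + 1) =>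
            (∀ i, (z i : ℕ) ∈ U) ∧ ∀ E : Finset (Fin B), (ρ - η) * B ≤ E.card →
            ∃ j : Fin m → Fin B, (∀ i, j i ∈ E) ∧ Function.Injective j ∧
            ¬ H (fun i => (z (j i) : ℕ))).card := by
        refine card_le_card_of_injOn (fun z i => (⟨(z i : ℕ), hlt (z i)⟩ : Fin (T + 1))) ?_ ?_
        · intro z hz
          rw [mem_coe, mem_filter] at hz ⊢
          exact ⟨mem_univ _, fun i => (z i).2, fun E hE => hz.2 E hE⟩
        · intro z _ z' _ h
          funext i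
          have h5 := congrFun h i
          apply Subtype.ext
          exact congrArg Fin.val h5
      exact_mod_cast h4)
  rw [← hκ', hcT] at h2
  have h3 := Pool.Agent.H21.GC.inj_part B s (T + 1) (fun V => ∀ φ : Fin B → Fin s,
    (∀ i, (V i (φ i) : ℕ) ∈ U) ∧ ∀ E : Finset (Fin B), (ρ - η) * B ≤ E.card →
      ∃ j : Fin m → Fin B, (∀ i, j i ∈ E) ∧ Function.Injective j ∧
        ¬ H (fun i => (V (j i) (φ (j i)) : ℕ))) κ'
    (by omega) (by
      have h8 : (T₂ : ℝ) ≤ ((T + 1 : ℕ) : ℝ) := by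
        have : T₂ ≤ T + 1 := by omega
        exact_mod_cast this
      rw [div_lt_iff₀ hκ'0] at hT₂
      have h9 := mul_le_mul_of_nonneg_left h8 hκ'0.le
      linarith) (h2.trans (Pool.Agent.H21.GC.card_imp fun V hV => hV))
  have h4 : κ' / 2 * (T : ℝ) ^ (B * s) ≤ κ' / 2 * (((T + 1 : ℕ) : ℝ)) ^ (B * s) := by
    refine mul_le_mul_of_nonneg_left (pow_le_pow_left₀ (Nat.cast_nonneg _) ?_ _) (by positivity)
    have : T ≤ T + 1 := by omega
    exact_mod_cast this
  refine h4.trans (h3.trans (Pool.Agent.H21.GC.card_imp ?_))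
  intro V hV
  exact ⟨hV.1, fun i j => (hV.2 fun _ => j).1 i, fun E hE φ => (hV.2 φ).2 E hE⟩

end Pool.Agent.H99.CA
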