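import Pool.Agent.H99.RO.Df

/-!
[H99 CA DF]  (Dense cliques at all scales, MP_8923e7_nt.)  Definitions.
-/

namespace Pool.Agent.H99.CA

open Finset Pool.Agent.H99.RO

open Classical in
/-- the indicator function -/
noncomputable def ind {V : Type} {m : ℕ} (H : (Fin m → V) → Prop) (y : Fin m → V) : ℝ :=
  if H y then 1 else 0

theorem ind_bd {V : Type} {m : ℕ} (H : (Fin m → V) → Prop) (y : Fin m → V) :
    0 ≤ ind H y ∧ ind H y ≤ 1 := by
  unfold ind
  split
  · exact ⟨zero_le_one, le_rfl⟩
  · exact ⟨le_rfl, zero_le_one⟩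

/-- `g` is a tuple of different pieces whose cells form a regular tuple of density at most `1 - p` -/
def Dg {V : Type} [Fintype V] {m k t1 : ℕ} (e p : ℝ) (H : (Fin m → V) → Prop) (c : V → Fin t1)
    (π : Fin k → Fin t1) (g : Fin m → Fin k) : Prop :=
  Function.Injective g ∧ Reg e (ind H) (fun j => cell c (π (g j))) ∧
    den (ind H) (fun j => cell c (π (g j))) ≤ 1 - p

/-- there are sets `E j` of at least `M` indices such that `H` holds for all choices in them -/
def Full {V : Type} {m b : ℕ} (M : ℕ) (H : (Fin m → V) → Prop) (z : Fin m → Fin b → V) : Prop :=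
  ∃ E : Fin m → Finset (Fin b), (∀ j, M ≤ (E j).card) ∧
    ∀ a : Fin m → Fin b, (∀ j, a j ∈ E j) → H (fun j => z j (a j))

end Pool.Agent.H99.CA
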