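import Pool.Agent.H99.CA.Bad

/-!
[H99 CA HALF]  (Dense cliques at all scales, MP_8923e7_nt.)  Half of the samples have few full tuples.

`Z = ∏_(g,a) C g` (`C g = cell c (π g)`).
Proof.  For an injective `g` with `Dg` the number of the `z ∈ Z` with `Full M H (fun j => z (g j))` is at most `q |Z|`, `q = 2^(m b) ((1-p)^(M^2) + M^2 e)`: `bad_le` for `U j = C (g j)` and the fibres of
`z ↦ (fun j => z (g j))` on `Z` (all have `∏_(g' not in the range of g) |C g'|^b` elements).  So the sum over `z ∈ Z` of `#{g : Dg g ∧ Full M H (fun j => z (g j))}` is at most `q |Z| k^m ≤ (ε/4) |Z| k^m`, and at most half of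
the `z` have more than `(ε/2) k^m` such `g` (Markov).
-/

namespace Pool.Agent.H99.CA

open Finset Pool.Agent.H99.RO

open Classical in
private theorem half_one {V : Type} [Fintype V] (m M : ℕ) [hM : Fact M.Prime] (hmM : m ≤ M) (b : ℕ)
    (e p : ℝ) (he : 0 ≤ e) (hp1 : p ≤ 1) (H : (Fin m → V) → Prop) {t1 : ℕ}
    (c : V → Fin t1) (k : ℕ) (π : Fin k → Fin t1) (g : Fin m → Fin k) (hg : Dg e p H c π g) :
    (((Fintype.piFinset fun g : Fin k => Fintype.piFinset fun _ : Fin b => cell c (π g)).filter
      fun z => Full M H (fun j => z (g j))).card : ℝ) ≤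
    2 ^ (m * b) * ((1 - p) ^ (M ^ 2) + (M : ℝ) ^ 2 * e) *
      ((Fintype.piFinset fun g : Fin k => Fintype.piFinset fun _ : Fin b => cell c (π g)).card : ℝ) := by
  set Z := Fintype.piFinset fun g : Fin k => Fintype.piFinset fun _ : Fin b => cell c (π g) with hZ
  set Z' := Fintype.piFinset fun j : Fin m => Fintype.piFinset fun _ : Fin b =>
    cell c (π (g j)) with hZ'
  obtain ⟨hinj, hreg, hden⟩ := hg
  have hb := bad_le m M hmM b e p he hp1 H (fun j => cell c (π (g j))) hreg hden
  let W : ℕ := ∏ g' ∈ (Finset.univ.image g)ᶜ, (cell c (π g')).card ^ b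
  have hZcard : Z.card = (∏ j, (cell c (π (g j))).card ^ b) * W := by
    rw [hZ, Fintype.card_piFinset]
    have h1 : ∀ g' : Fin k, (Fintype.piFinset fun _ : Fin b => cell c (π g')).card =
        (cell c (π g')).card ^ b := by
      intro g'
      rw [Fintype.card_piFinset, Finset.prod_const, Finset.card_univ, Fintype.card_fin]
    rw [Finset.prod_congr rfl fun g' _ => h1 g', ← Finset.prod_mul_prod_compl (Finset.univ.image g),
      Finset.prod_image fun a _ a' _ h => hinj h]
  have hcard : (Z.filter fun z => Full M H (fun j => z (g j))).card ≤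
      (Z'.filter fun z => Full M H z).card * W := by
    have hmaps : ∀ z ∈ Z.filter (fun z => Full M H (fun j => z (g j))),
        (fun j => z (g j)) ∈ Z'.filter fun z => Full M H z := by
      intro z hz
      rw [Finset.mem_filter] at hz ⊢
      refine ⟨?_, hz.2⟩
      rw [hZ'] 
      rw [Fintype.mem_piFinset]
      intro j
      have := hz.1
      rw [hZ, Fintype.mem_piFinset] at this
      exact this (g j)
    rw [Finset.card_eq_sum_card_fiberwise hmaps, Finset.card_eq_sum_ones, Finset.sum_mul]
    refine Finset.sum_le_sum fun z' _ => ?_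
    rw [one_mul]
    have h2 : ((Z.filter fun z => Full M H (fun j => z (g j))).filter
        fun z => (fun j => z (g j)) = z') ⊆
        Fintype.piFinset fun g' : Fin k => if h : ∃ j, g j = g' then {z' h.choose} else
          Fintype.piFinset fun _ : Fin b => cell c (π g') := by
      intro z hz
      rw [Finset.mem_filter, Finset.mem_filter] at hz
      rw [Fintype.mem_piFinset]
      intro g'
      split_ifs with h
      · rw [Finset.mem_singleton]
        have h3 := congrFun hz.2 h.choose
        rw [h.choose_spec] at h3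
        exact h3
      · have h3 := hz.1.1
        rw [hZ, Fintype.mem_piFinset] at h3
        exact h3 g'
    refine (Finset.card_le_card h2).trans (le_of_eq ?_)
    rw [Fintype.card_piFinset]
    have h5 : ∀ g' : Fin k, (if h : ∃ j, g j = g' then ({z' h.choose} : Finset (Fin b → V)) else
          Fintype.piFinset fun _ : Fin b => cell c (π g')).card =
        if (∃ j, g j = g') then 1 else (cell c (π g')).card ^ b := by
      intro g'
      split_ifs with h
      · exact Finset.card_singleton _
      · rw [Fintype.card_piFinset, Finset.prod_const, Finset.card_univ, Fintype.card_fin]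
    rw [Finset.prod_congr rfl fun g' _ => h5 g', Finset.prod_ite, Finset.prod_const_one, one_mul]
    refine Finset.prod_congr ?_ fun _ _ => rfl
    ext g'
    simp
  have hcard' : ((Z.filter fun z => Full M H (fun j => z (g j))).card : ℝ) ≤
      ((Z'.filter fun z => Full M H z).card : ℝ) * W := by exact_mod_cast hcard
  refine hcard'.trans ((mul_le_mul_of_nonneg_right hb (Nat.cast_nonneg _)).trans (le_of_eq ?_))
  rw [hZcard]
  push_cast
  ring

open Classical in
theorem half {V : Type} [Fintype V] (m M : ℕ) [hM : Fact M.Prime] (hmM : m ≤ M) (b : ℕ)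
    (eps e p : ℝ) (heps : 0 < eps) (he : 0 ≤ e) (hp1 : p ≤ 1) (H : (Fin m → V) → Prop) {t1 : ℕ}
    (c : V → Fin t1) (k : ℕ) (hk : 1 ≤ k) (π : Fin k → Fin t1)
    (hq : 2 ^ (m * b) * ((1 - p) ^ (M ^ 2) + (M : ℝ) ^ 2 * e) ≤ eps / 4) :
    ((Fintype.piFinset fun g : Fin k => Fintype.piFinset fun _ : Fin b => cell c (π g)).card : ℝ) / 2 ≤
      (((Fintype.piFinset fun g : Fin k => Fintype.piFinset fun _ : Fin b => cell c (π g)).filter
        fun z => ((univ.filter fun g : Fin m → Fin k => Dg e p H c π g ∧
          Full M H (fun j => z (g j))).card : ℝ) ≤ eps / 2 * (k : ℝ) ^ m).card : ℝ) := by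
  set Z := Fintype.piFinset fun g : Fin k => Fintype.piFinset fun _ : Fin b => cell c (π g) with hZ
  let cnt : (Fin k → Fin b → V) → ℕ := fun z => (univ.filter fun g : Fin m → Fin k => Dg e p H c π g ∧
          Full M H (fun j => z (g j))).card
  have hsum : ((∑ z ∈ Z, cnt z : ℕ) : ℝ) ≤ eps / 4 * (k : ℝ) ^ m * Z.card := by
    have h1 : ∑ z ∈ Z, cnt z = ∑ g ∈ univ.filter (fun g : Fin m → Fin k => Dg e p H c π g),
        (Z.filter fun z => Full M H (fun j => z (g j))).card := by
      simp only [cnt]
      rw [Finset.sum_congr rfl fun z _ => Finset.card_eq_sum_ones _]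
      rw [Finset.sum_congr (s₁ := univ.filter (fun g : Fin m → Fin k => Dg e p H c π g)) rfl
        fun g _ => Finset.card_eq_sum_ones _]
      simp only [Finset.sum_filter]
      rw [Finset.sum_comm]
      refine Finset.sum_congr rfl fun g _ => ?_
      by_cases hg : Dg e p H c π g
      · simp only [hg, true_and, if_true]
      · simp only [hg, false_and, if_false, Finset.sum_const_zero]
    rw [h1]
    push_cast
    have h2 : ∀ g ∈ univ.filter (fun g : Fin m → Fin k => Dg e p H c π g),
        ((Z.filter fun z => Full M H (fun j => z (g j))).card : ℝ) ≤ eps / 4 * Z.card := by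
      intro g hg
      refine (half_one m M hmM b e p he hp1 H c k π g (Finset.mem_filter.1 hg).2).trans ?_
      exact mul_le_mul_of_nonneg_right hq (Nat.cast_nonneg _)
    refine (Finset.sum_le_card_nsmul _ _ _ h2).trans ?_
    rw [nsmul_eq_mul]
    have h3 : ((univ.filter (fun g : Fin m → Fin k => Dg e p H c π g)).card : ℝ) ≤ (k : ℝ) ^ m := by
      have h4 := Finset.card_filter_le (univ : Finset (Fin m → Fin k)) (fun g => Dg e p H c π g)
      rw [Finset.card_univ, Fintype.card_fun, Fintype.card_fin, Fintype.card_fin] at h4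
      exact_mod_cast h4
    have h4 : 0 ≤ eps / 4 * (Z.card : ℝ) := by positivity
    nlinarith [mul_le_mul_of_nonneg_right h3 h4]
  have hkm : 0 < (k : ℝ) ^ m := by
    have : (0 : ℝ) < k := by exact_mod_cast hk
    positivity
  have hbad : ((Z.filter fun z => ¬ ((cnt z : ℝ) ≤ eps / 2 * (k : ℝ) ^ m)).card : ℝ) *
      (eps / 2 * (k : ℝ) ^ m) ≤ ((∑ z ∈ Z, cnt z : ℕ) : ℝ) := by
    rw [← nsmul_eq_mul, ← Finset.sum_const]
    push_cast
    refine (Finset.sum_le_sum fun z hz => (not_le.1 (Finset.mem_filter.1 hz).2).le).trans ?_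
    exact Finset.sum_le_sum_of_subset_of_nonneg (Finset.filter_subset _ _)
      fun z _ _ => Nat.cast_nonneg _
  have hsplit : ((Z.filter fun z => (cnt z : ℝ) ≤ eps / 2 * (k : ℝ) ^ m).card : ℝ) +
      ((Z.filter fun z => ¬ ((cnt z : ℝ) ≤ eps / 2 * (k : ℝ) ^ m)).card : ℝ) = Z.card := by
    exact_mod_cast Finset.card_filter_add_card_filter_not (s := Z)
      (fun z => (cnt z : ℝ) ≤ eps / 2 * (k : ℝ) ^ m)
  have h5 : ((Z.filter fun z => ¬ ((cnt z : ℝ) ≤ eps / 2 * (k : ℝ) ^ m)).card : ℝ) ≤
      (Z.card : ℝ) / 2 := by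
    have h6 : 0 < eps / 2 * (k : ℝ) ^ m := by positivity
    have h7 := hbad.trans hsum
    have h8 : eps / 4 * (k : ℝ) ^ m * (Z.card : ℝ) = (Z.card : ℝ) / 2 * (eps / 2 * (k : ℝ) ^ m) := by
      ring
    rw [h8] at h7
    exact le_of_mul_le_mul_right h7 h6
  show (Z.card : ℝ) / 2 ≤ ((Z.filter fun z => (cnt z : ℝ) ≤ eps / 2 * (k : ℝ) ^ m).card : ℝ)
  linarith

end Pool.Agent.H99.CA
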