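import Pool.Agent.H99.CA.Df

/-!
[H99 CA MANY]  (Dense cliques at all scales, MP_8923e7_nt.)  Many good tuples of pieces.

`n = |V|`, `S = ⋃_{g ∈ R} P g`, `k w ≤ n` (disjoint pieces).
Proof.  Every `y ∈ S^m` lies in exactly one box `∏ P (g j)`, `g ∈ R^m`.  So `ε n^m < ∑_{g ∈ R^m} #{y ∈ ∏ P (g j) : ¬ H y}`.
* `g` not injective: at most `m^2 k^(m-1)` of them (`m ≥ 1`; for `j ≠ j'` with `g j = g j'` the map forgetting `g j'` is injective), each contributes at most `w^m`: total
  `≤ m^2 k^(m-1) w^m ≤ (ε/8) k^m w^m ≤ (ε/8) n^m`.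
* cells not regular: the boxes `∏ P (g j)` are disjoint and contained in the boxes of the cells: total at most `∑_{t not Reg} wt c t ≤ e n^m ≤ (ε/8) n^m`.
* `den > 1 - p`: total at most `∑_t #{y ∈ box t : ¬ H y} ≤ ∑_t (1 - den) wt c t ≤ p n^m ≤ (ε/8) n^m` (`∑_t wt c t = n^m`).
* the others satisfy `Dg`: each contributes at most `w^m`.
So `w^m #{g ∈ R^m : Dg} > (ε/2) n^m ≥ (ε/2) (k w)^m`.
-/

namespace Pool.Agent.H99.CA

open Finset Pool.Agent.H99.RO

private theorem many_boxes {V : Type} [Fintype V] {m k t1 : ℕ} (c : V → Fin t1)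
    (P : Fin k → Finset V) (π : Fin k → Fin t1) (hPc : ∀ g, P g ⊆ cell c (π g))
    (hPd : ∀ g g', g ≠ g' → Disjoint (P g) (P g'))
    (N : Finset (Fin m → Fin k)) (D : Finset (Fin m → Fin t1))
    (hND : ∀ g ∈ N, (fun j => π (g j)) ∈ D) (Q : (Fin m → V) → Prop) [DecidablePred Q] :
    ∑ g ∈ N, ((Fintype.piFinset fun j => P (g j)).filter Q).card ≤
      ∑ t ∈ D, ((Fintype.piFinset fun j => cell c (t j)).filter Q).card := by
  classical
  rw [← Finset.card_biUnion]
  · refine (Finset.card_le_card ?_).trans Finset.card_biUnion_le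
    intro y hy
    rw [Finset.mem_biUnion] at hy ⊢
    obtain ⟨g, hg, hy⟩ := hy
    rw [Finset.mem_filter, Fintype.mem_piFinset] at hy
    refine ⟨_, hND g hg, ?_⟩
    rw [Finset.mem_filter, Fintype.mem_piFinset]
    exact ⟨fun j => hPc _ (hy.1 j), hy.2⟩
  · intro g _ g' _ hne
    rw [Function.onFun, Finset.disjoint_left]
    intro y hy hy'
    rw [Finset.mem_filter, Fintype.mem_piFinset] at hy hy'
    obtain ⟨j, hj⟩ := Function.ne_iff.1 hne
    exact Finset.disjoint_left.1 (hPd _ _ hj) (hy.1 j) (hy'.1 j)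

private theorem many_wt {V : Type} [Fintype V] {m t1 : ℕ} (c : V → Fin t1) :
    ∑ t : Fin m → Fin t1, wt c t = (Fintype.card V : ℝ) ^ m := by
  classical
  unfold wt
  rw [← Fintype.sum_pow (fun s => ((cell c s).card : ℝ)) m]
  congr 1
  rw [← Nat.cast_sum]
  congr 1
  have h1 := Finset.card_eq_sum_card_fiberwise (s := (Finset.univ : Finset V)) (t := Finset.univ)
    (f := c) (fun x _ => Finset.mem_univ _)
  rw [Finset.card_univ] at h1
  rw [h1]
  refine Finset.sum_congr rfl fun s _ => ?_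
  unfold cell
  congr 1
  ext v
  simp

private theorem many_noninj {m k : ℕ} :
    ((Finset.univ.filter fun g : Fin m → Fin k => ¬ Function.Injective g).card : ℕ) ≤
      m ^ 2 * k ^ (m - 1) := by
  classical
  have h1 : (Finset.univ.filter fun g : Fin m → Fin k => ¬ Function.Injective g) ⊆
      (Finset.univ : Finset (Fin m × Fin m)).biUnion fun q =>
        Finset.univ.filter fun g : Fin m → Fin k => q.1 ≠ q.2 ∧ g q.1 = g q.2 := by
    intro g hg
    rw [Finset.mem_filter] at hg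
    have h2 := hg.2
    unfold Function.Injective at h2
    push Not at h2
    obtain ⟨a, b, hab, hne⟩ := h2
    rw [Finset.mem_biUnion]
    refine ⟨(a, b), Finset.mem_univ _, ?_⟩
    rw [Finset.mem_filter]
    exact ⟨Finset.mem_univ _, hne, hab⟩
  refine (Finset.card_le_card h1).trans (Finset.card_biUnion_le.trans ?_)
  have h2 : ∀ q ∈ (Finset.univ : Finset (Fin m × Fin m)),
      (Finset.univ.filter fun g : Fin m → Fin k => q.1 ≠ q.2 ∧ g q.1 = g q.2).card ≤ k ^ (m - 1) := by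
    rintro ⟨a, b⟩ -
    have h3 : Fintype.card ({i : Fin m // i ≠ b} → Fin k) = k ^ (m - 1) := by
      rw [Fintype.card_fun, Fintype.card_fin, Fintype.card_subtype_compl, Fintype.card_fin,
        Fintype.card_subtype_eq]
    rw [← h3, ← Finset.card_univ]
    refine Finset.card_le_card_of_injOn (fun g i => g i.1) (fun g _ => Finset.mem_univ _) ?_
    intro g hg g' hg' hgg
    rw [Finset.mem_coe, Finset.mem_filter] at hg hg'
    funext i
    by_cases hi : i = b
    · subst hi
      have h4 := congrFun hgg ⟨a, hg.2.1⟩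
      simp only at h4
      have h5 : g a = g i := hg.2.2
      have h6 : g' a = g' i := hg'.2.2
      rw [← h5, ← h6]
      exact h4
    · exact congrFun hgg ⟨i, hi⟩
  refine (Finset.sum_le_card_nsmul _ _ _ h2).trans ?_
  rw [Finset.card_univ, Fintype.card_prod, Fintype.card_fin, smul_eq_mul, pow_two]

open Classical in
private theorem many_den {V : Type} [Fintype V] {m t1 : ℕ} (H : (Fin m → V) → Prop) (c : V → Fin t1)
    {p : ℝ} (hp : 0 ≤ p) (t : Fin m → Fin t1) (ht : ¬ den (ind H) (fun j => cell c (t j)) ≤ 1 - p) :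
    (((Fintype.piFinset fun j => cell c (t j)).filter fun y => ¬ H y).card : ℝ) ≤ p * wt c t := by
  set B := Fintype.piFinset fun j => cell c (t j) with hB
  have hcard : (B.card : ℝ) = wt c t := by
    rw [hB, Fintype.card_piFinset]
    push_cast
    rfl
  have hsum : ∑ x ∈ B, ind H x = ((B.filter fun y => H y).card : ℝ) := by
    unfold ind
    rw [Finset.sum_boole]
  have hsplit : ((B.filter fun y => H y).card : ℝ) + ((B.filter fun y => ¬ H y).card : ℝ) = B.card := by
    exact_mod_cast Finset.card_filter_add_card_filter_not (s := B) (fun y => H y)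
  push Not at ht
  unfold den at ht
  rw [← hB] at ht
  have hw : (∏ j, ((cell c (t j)).card : ℝ)) = wt c t := rfl
  rw [hsum, hw] at ht
  by_cases hw0 : wt c t = 0
  · rw [hw0] at hcard
    rw [hw0, mul_zero]
    have h1 : (0 : ℝ) ≤ ((B.filter fun y => H y).card : ℝ) := Nat.cast_nonneg _
    linarith
  · have hwp : 0 < wt c t := lt_of_le_of_ne (by rw [← hcard]; exact Nat.cast_nonneg _) (Ne.symm hw0)
    rw [lt_div_iff₀ hwp] at ht
    nlinarith

open Classical in
theorem many {V : Type} [Fintype V] (m : ℕ) (hm : 1 ≤ m) (eps e p : ℝ) (he : 0 ≤ e) (he1 : e ≤ eps / 8)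
    (hp : 0 ≤ p) (hp1 : p ≤ eps / 8) (H : (Fin m → V) → Prop) {t1 : ℕ} (c : V → Fin t1)
    (hirr : ∑ t ∈ univ.filter (fun t : Fin m → Fin t1 => ¬ Reg e (ind H) (fun j => cell c (t j))), wt c t ≤
      e * (Fintype.card V : ℝ) ^ m) (k w : ℕ) (hw : 1 ≤ w) (P : Fin k → Finset V) (π : Fin k → Fin t1)
    (hPw : ∀ g, (P g).card = w) (hPc : ∀ g, P g ⊆ cell c (π g))
    (hPd : ∀ g g', g ≠ g' → Disjoint (P g) (P g')) (hk : (m : ℝ) ^ 2 ≤ eps / 8 * k)
    (R : Finset (Fin k))
    (hS : eps * (Fintype.card V : ℝ) ^ m <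
      (((Fintype.piFinset fun _ : Fin m => R.biUnion P).filter fun y => ¬ H y).card : ℝ)) :
    eps / 2 * (k : ℝ) ^ m <
      (((Fintype.piFinset fun _ : Fin m => R).filter fun g => Dg e p H c π g).card : ℝ) := by
  set n := Fintype.card V with hn
  -- the pieces
  have hkw : k * w ≤ n := by
    have h1 : ((Finset.univ : Finset (Fin k)).biUnion P).card = ∑ g : Fin k, (P g).card :=
      Finset.card_biUnion fun g _ g' _ hne => hPd g g' hne
    rw [Finset.sum_congr rfl fun g _ => hPw g, Finset.sum_const, Finset.card_univ, Fintype.card_fin,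
      smul_eq_mul] at h1
    rw [← h1]
    exact Finset.card_le_univ _
  have hkw' : ((k : ℝ) * w) ^ m ≤ (n : ℝ) ^ m := by
    refine pow_le_pow_left₀ (by positivity) ?_ m
    exact_mod_cast hkw
  have hm1 : (1 : ℝ) ≤ m := by exact_mod_cast hm
  have hek : 0 < eps / 8 * k := by nlinarith
  have hk0 : 0 < k := by
    rcases Nat.eq_zero_or_pos k with h0 | h0
    · rw [h0] at hek
      simp at hek
    · exact h0
  have hk0' : (0 : ℝ) < k := by exact_mod_cast hk0
  have heps : 0 < eps := by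
    by_contra hcon
    push Not at hcon
    nlinarith
  have hw0 : (0 : ℝ) < w := by exact_mod_cast hw
  let Bx : (Fin m → Fin k) → ℕ := fun g =>
    ((Fintype.piFinset fun j => P (g j)).filter fun y => ¬ H y).card
  have hBx : ∀ g, Bx g ≤ w ^ m := by
    intro g
    refine (Finset.card_filter_le _ _).trans ?_
    rw [Fintype.card_piFinset, Finset.prod_congr rfl fun j _ => hPw (g j), Finset.prod_const,
      Finset.card_univ, Fintype.card_fin]
  let RR : Finset (Fin m → Fin k) := Fintype.piFinset fun _ : Fin m => R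
  have h0 : ((Fintype.piFinset fun _ : Fin m => R.biUnion P).filter fun y => ¬ H y).card ≤
      ∑ g ∈ RR, Bx g := by
    refine (Finset.card_le_card ?_).trans Finset.card_biUnion_le
    intro y hy
    rw [Finset.mem_filter, Fintype.mem_piFinset] at hy
    have h1 : ∀ j, ∃ g ∈ R, y j ∈ P g := fun j => by
      have := hy.1 j
      rwa [Finset.mem_biUnion] at this
    choose g hg hgy using h1
    rw [Finset.mem_biUnion]
    refine ⟨g, Fintype.mem_piFinset.2 hg, ?_⟩
    rw [Finset.mem_filter, Fintype.mem_piFinset]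
    exact ⟨hgy, hy.2⟩
  -- split the sum
  let N1 := RR.filter fun g => ¬ Function.Injective g
  let N2 := RR.filter fun g => ¬ Reg e (ind H) (fun j => cell c (π (g j)))
  let N3 := RR.filter fun g => ¬ den (ind H) (fun j => cell c (π (g j))) ≤ 1 - p
  let N4 := RR.filter fun g => Dg e p H c π g
  have hsub : RR ⊆ N1 ∪ (N2 ∪ (N3 ∪ N4)) := by
    intro g hg
    simp only [N1, N2, N3, N4, Finset.mem_union, Finset.mem_filter]
    unfold Dg
    tauto
  have hsplit : ∑ g ∈ RR, Bx g ≤ ∑ g ∈ N1, Bx g + (∑ g ∈ N2, Bx g + (∑ g ∈ N3, Bx g + ∑ g ∈ N4, Bx g)) := by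
    refine (Finset.sum_le_sum_of_subset hsub).trans ?_
    have hu : ∀ A B : Finset (Fin m → Fin k), ∑ g ∈ A ∪ B, Bx g ≤ ∑ g ∈ A, Bx g + ∑ g ∈ B, Bx g := by
      intro A B
      rw [← Finset.sum_union_inter]
      exact Nat.le_add_right _ _
    refine (hu _ _).trans (Nat.add_le_add_left ((hu _ _).trans (Nat.add_le_add_left (hu _ _) _)) _)
  have e1 : ((∑ g ∈ N1, Bx g : ℕ) : ℝ) ≤ eps / 8 * (n : ℝ) ^ m := by
    have h1 : ∑ g ∈ N1, Bx g ≤ m ^ 2 * k ^ (m - 1) * w ^ m := by
      refine (Finset.sum_le_card_nsmul _ _ _ fun g _ => hBx g).trans ?_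
      rw [smul_eq_mul]
      refine Nat.mul_le_mul_right _ (le_trans (Finset.card_le_card ?_) many_noninj)
      intro g hg
      rw [Finset.mem_filter] at hg ⊢
      exact ⟨Finset.mem_univ _, hg.2⟩
    have h2 : ((∑ g ∈ N1, Bx g : ℕ) : ℝ) ≤ (m : ℝ) ^ 2 * (k : ℝ) ^ (m - 1) * (w : ℝ) ^ m := by
      exact_mod_cast h1
    refine h2.trans ?_
    have h3 : (k : ℝ) ^ m = (k : ℝ) ^ (m - 1) * k := by
      rw [← pow_succ]
      congr 1
      omega
    calc (m : ℝ) ^ 2 * (k : ℝ) ^ (m - 1) * (w : ℝ) ^ m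
        ≤ (eps / 8 * k) * (k : ℝ) ^ (m - 1) * (w : ℝ) ^ m := by gcongr
      _ = eps / 8 * ((k : ℝ) * w) ^ m := by rw [mul_pow, h3]; ring
      _ ≤ eps / 8 * (n : ℝ) ^ m := by gcongr
  have e2 : ((∑ g ∈ N2, Bx g : ℕ) : ℝ) ≤ eps / 8 * (n : ℝ) ^ m := by
    have h1 := many_boxes c P π hPc hPd N2
      (univ.filter (fun t : Fin m → Fin t1 => ¬ Reg e (ind H) (fun j => cell c (t j))))
      (fun g hg => Finset.mem_filter.2 ⟨Finset.mem_univ _, (Finset.mem_filter.1 hg).2⟩) (fun y => ¬ H y)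
    have h2 : ((∑ g ∈ N2, Bx g : ℕ) : ℝ) ≤
        ∑ t ∈ univ.filter (fun t : Fin m → Fin t1 => ¬ Reg e (ind H) (fun j => cell c (t j))), wt c t := by
      refine le_trans (Nat.cast_le.2 h1) ?_
      push_cast
      refine Finset.sum_le_sum fun t _ => ?_
      refine le_trans (Nat.cast_le.2 (Finset.card_filter_le _ _)) ?_
      rw [Fintype.card_piFinset]
      push_cast
      exact le_refl _
    refine h2.trans (hirr.trans ?_)
    gcongr
  have e3 : ((∑ g ∈ N3, Bx g : ℕ) : ℝ) ≤ eps / 8 * (n : ℝ) ^ m := by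
    have h1 := many_boxes c P π hPc hPd N3
      (univ.filter (fun t : Fin m → Fin t1 => ¬ den (ind H) (fun j => cell c (t j)) ≤ 1 - p))
      (fun g hg => Finset.mem_filter.2 ⟨Finset.mem_univ _, (Finset.mem_filter.1 hg).2⟩) (fun y => ¬ H y)
    have h2 : ((∑ g ∈ N3, Bx g : ℕ) : ℝ) ≤ ∑ t : Fin m → Fin t1, p * wt c t := by
      refine le_trans (Nat.cast_le.2 h1) ?_
      push_cast
      refine le_trans (Finset.sum_le_sum fun t ht => many_den H c hp t (Finset.mem_filter.1 ht).2) ?_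
      refine Finset.sum_le_sum_of_subset_of_nonneg (Finset.filter_subset _ _) fun t _ _ => ?_
      refine mul_nonneg hp (Finset.prod_nonneg fun j _ => Nat.cast_nonneg _)
    refine h2.trans ?_
    rw [← Finset.mul_sum, many_wt]
    gcongr
  have e4 : ((∑ g ∈ N4, Bx g : ℕ) : ℝ) ≤ (N4.card : ℝ) * (w : ℝ) ^ m := by
    have h1 := Finset.sum_le_card_nsmul N4 Bx (w ^ m) fun g _ => hBx g
    rw [smul_eq_mul] at h1
    exact_mod_cast h1
  have hfin : eps * (n : ℝ) ^ m < eps / 8 * (n : ℝ) ^ m + (eps / 8 * (n : ℝ) ^ m +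
      (eps / 8 * (n : ℝ) ^ m + (N4.card : ℝ) * (w : ℝ) ^ m)) := by
    refine lt_of_lt_of_le hS ?_
    refine le_trans (Nat.cast_le.2 (h0.trans hsplit)) ?_
    push_cast at e1 e2 e3 e4 ⊢
    linarith
  have hnm : 0 < (n : ℝ) ^ m := lt_of_lt_of_le (by positivity) hkw'
  have h5 : eps / 2 * ((k : ℝ) * w) ^ m < (N4.card : ℝ) * (w : ℝ) ^ m := by
    have h6 : eps / 2 * ((k : ℝ) * w) ^ m ≤ eps / 2 * (n : ℝ) ^ m := by gcongr
    nlinarith
  rw [mul_pow, ← mul_assoc] at h5
  exact lt_of_mul_lt_mul_right h5 (by positivity)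

end Pool.Agent.H99.CA
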