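import Pool.Agent.H99.RO.Df

/-!
[H99 CA PIE]  (Dense cliques at all scales, MP_8923e7_nt.)  Pieces of equal size inside the cells.

Proof.  Induction on `k`.  Given `k` pieces, the rest `univ \ ⋃ P g` has at least `(t1 + 1) w > t1 (w - 1)` elements (if `(k + 1 + t1) w ≤ |V|`), so one colour
occurs at least `w` times in it (`exists_lt_card_fiber_of_mul_lt_card_of_maps_to`): choose `w` of these elements (`Finset.exists_subset_card_eq`), `Fin.snoc` or `Fin.cons`.
-/

namespace Pool.Agent.H99.CA

open Finset Pool.Agent.H99.RO

theorem pieces {V : Type} [Fintype V] (t1 : ℕ) (c : V → Fin t1) (w : ℕ) (hw : 1 ≤ w) (k : ℕ)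
    (h : (k + t1) * w ≤ Fintype.card V) :
    ∃ (P : Fin k → Finset V) (π : Fin k → Fin t1), (∀ g, (P g).card = w) ∧
      (∀ g, P g ⊆ cell c (π g)) ∧ ∀ g g', g ≠ g' → Disjoint (P g) (P g') := by
  classical
  induction k with
  | zero => exact ⟨fun g => g.elim0, fun g => g.elim0, fun g => g.elim0, fun g => g.elim0,
      fun g => g.elim0⟩
  | succ k ih =>
    obtain ⟨P, π, h1, h2, h3⟩ := ih (le_trans (Nat.mul_le_mul_right _ (by omega)) h)
    obtain ⟨R, hR⟩ : ∃ R : Finset V, R = univ \ (univ.biUnion P) := ⟨_, rfl⟩
    have hcU : (univ.biUnion P).card ≤ k * w := by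
      refine card_biUnion_le.trans ?_
      rw [sum_congr rfl (fun g _ => h1 g), sum_const, card_univ, Fintype.card_fin, smul_eq_mul]
    have hRc : (t1 + 1) * w ≤ R.card := by
      have e1 : R.card + (univ.biUnion P).card = Fintype.card V := by
        rw [hR, ← card_univ]
        exact card_sdiff_add_card_eq_card (subset_univ _)
      have e2 : (k + 1 + t1) * w = k * w + (t1 + 1) * w := by ring
      omega
    obtain ⟨t, -, ht⟩ : ∃ t ∈ (univ : Finset (Fin t1)), w - 1 < (R.filter fun v => c v = t).card := by
      apply exists_lt_card_fiber_of_mul_lt_card_of_maps_to (fun _ _ => mem_univ _)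
      rw [card_univ, Fintype.card_fin]
      have e3 : t1 * (w - 1) ≤ t1 * w := Nat.mul_le_mul_left _ (by omega)
      have e4 : (t1 + 1) * w = t1 * w + w := by ring
      omega
    obtain ⟨S, hS, hSc⟩ := exists_subset_card_eq (show w ≤ (R.filter fun v => c v = t).card by omega)
    have hdis : ∀ g, Disjoint (P g) S := by
      intro g
      rw [Finset.disjoint_left]
      intro v hv hvS
      have h4 := (mem_filter.1 (hS hvS)).1
      rw [hR, mem_sdiff] at h4
      exact h4.2 (mem_biUnion.2 ⟨g, mem_univ _, hv⟩)
    refine ⟨Fin.cons S P, Fin.cons t π, ?_, ?_, ?_⟩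
    · intro g
      refine Fin.cases ?_ (fun g => ?_) g
      · simpa using hSc
      · simpa using h1 g
    · intro g
      refine Fin.cases ?_ (fun g => ?_) g
      · simp only [Fin.cons_zero]
        intro v hv
        have h5 := (mem_filter.1 (hS hv)).2
        simp only [cell, mem_filter, mem_univ, true_and]
        exact h5
      · simpa using h2 g
    · intro g g'
      refine Fin.cases ?_ (fun g => ?_) g
      · refine Fin.cases ?_ (fun g' => ?_) g'
        · intro h
          exact absurd rfl h
        · intro _
          simp only [Fin.cons_zero, Fin.cons_succ]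
          exact (hdis g').symm
      · refine Fin.cases ?_ (fun g' => ?_) g'
        · intro _
          simp only [Fin.cons_zero, Fin.cons_succ]
          exact hdis g
        · intro h
          simp only [Fin.cons_succ]
          exact h3 g g' (fun hh => h (by rw [hh]))

end Pool.Agent.H99.CA
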