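import Mathlib

/-!
[H99 CA PRM]  (Dense cliques at all scales, MP_8923e7_nt.)  Choice of the parameters.

Proof.  `b = ⌈M/η⌉ ≤ M/η + 1`, so `2^(m b) ≤ 2^(m (M/η + 1))`, while `(1 - p)^(M^2) ≤ exp(-p M^2)`: the product tends to 0 as `M → ∞`; infinitely many primes (`Nat.exists_infinite_primes`).
Then `e` so small that `2^(m b) M^2 e ≤ ε/8`.
-/

namespace Pool.Agent.H99.CA

theorem prm (m : ℕ) (eps p η : ℝ) (heps : 0 < eps) (hp : 0 < p) (hp1 : p ≤ 1) (hη : 0 < η) :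
    ∃ (M b : ℕ) (e : ℝ), M.Prime ∧ m ≤ M ∧ 1 ≤ b ∧ (M : ℝ) ≤ η * b ∧ 0 < e ∧ e ≤ eps / 8 ∧
      2 ^ (m * b) * ((1 - p) ^ (M ^ 2) + (M : ℝ) ^ 2 * e) ≤ eps / 4 := by
  obtain ⟨c, hc⟩ : ∃ c : ℕ, c = ⌈1 / η⌉₊ := ⟨_, rfl⟩
  have hcη : 1 ≤ η * c := by
    have h1 : 1 / η ≤ c := by rw [hc]; exact Nat.le_ceil _
    rw [div_le_iff₀ hη] at h1
    linarith
  have hc1 : 1 ≤ c := by
    rw [hc]
    exact Nat.one_le_iff_ne_zero.mpr (Nat.ceil_pos.mpr (by positivity)).ne'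
  set A : ℝ := 2 ^ (m * c) with hA
  have hA0 : 0 < A := by positivity
  have hp0 : 0 ≤ 1 - p := by linarith
  have hp2 : 1 - p ≤ 1 := by linarith
  obtain ⟨M₁, hM₁⟩ := exists_pow_lt_of_lt_one (show (0 : ℝ) < 1 / (2 * A) by positivity)
    (show 1 - p < 1 by linarith)
  obtain ⟨M₂, hM₂⟩ := exists_pow_lt_of_lt_one (show (0 : ℝ) < eps / 8 by positivity)
    (show (1 / 2 : ℝ) < 1 by norm_num)
  obtain ⟨M, hM, hMp⟩ := Nat.exists_infinite_primes (m + M₁ + M₂)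
  have hM1 : 1 ≤ M := hMp.one_lt.le
  have hMr : (0 : ℝ) < M := by exact_mod_cast hM1
  set D : ℝ := 2 ^ (m * (c * M)) * (M : ℝ) ^ 2 with hD
  have hD0 : 0 < D := by positivity
  refine ⟨M, c * M, min (eps / 8) (eps / 8 / D), hMp, by omega, ?_, ?_, ?_, min_le_left _ _, ?_⟩
  · exact Nat.one_le_iff_ne_zero.mpr (by positivity)
  · push_cast
    nlinarith
  · exact lt_min (by positivity) (by positivity)
  · have h1 : (2 : ℝ) ^ (m * (c * M)) * (1 - p) ^ (M ^ 2) ≤ eps / 8 := by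
      have e1 : (2 : ℝ) ^ (m * (c * M)) * (1 - p) ^ (M ^ 2) = (A * (1 - p) ^ M) ^ M := by
        rw [hA, mul_pow, ← pow_mul, ← pow_mul, ← mul_assoc, pow_two]
      have e2 : A * (1 - p) ^ M ≤ 1 / 2 := by
        have h2 : (1 - p) ^ M ≤ (1 - p) ^ M₁ := pow_le_pow_of_le_one hp0 hp2 (by omega)
        have h3 : A * (1 - p) ^ M ≤ A * (1 / (2 * A)) :=
          mul_le_mul_of_nonneg_left (h2.trans hM₁.le) hA0.le
        have h4 : A * (1 / (2 * A)) = 1 / 2 := by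
          field_simp
        linarith
      have e3 : (1 / 2 : ℝ) ^ M ≤ (1 / 2 : ℝ) ^ M₂ :=
        pow_le_pow_of_le_one (by norm_num) (by norm_num) (by omega)
      rw [e1]
      exact (pow_le_pow_left₀ (by positivity) e2 M).trans (e3.trans hM₂.le)
    have h2 : (2 : ℝ) ^ (m * (c * M)) * ((M : ℝ) ^ 2 * min (eps / 8) (eps / 8 / D)) ≤ eps / 8 := by
      rw [← mul_assoc, ← hD]
      calc D * min (eps / 8) (eps / 8 / D) ≤ D * (eps / 8 / D) :=
            mul_le_mul_of_nonneg_left (min_le_right _ _) hD0.le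
        _ = eps / 8 := by field_simp
    rw [mul_add]
    linarith

end Pool.Agent.H99.CA
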