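import Pool.Agent.H99.CA.Box
import Pool.Agent.H61.GD.OneC

/-!
[H99 CA SML]  (Dense cliques at all scales, MP_8923e7_nt.)  Cliques for `L ≤ (log X)^A`.

Proof.  As `oneC` in H61/GD/OneC, with `clq_box m (13/(50 r)) ε` instead of `k_box'` (and `k + 1 = m`): `η, B`; `e = min (η/2) (1/100)` (`2 e ≤ η`, and `(13/50 - 2e)/r ≥ 13/(50 r) - η`), `s` from `main_B hU e B (m-1)`,
`Q0 = primorial (B s)`, `K = B s - m`.  For `Q, A`: `δ0, T0` from `clq_box`, `δ = δ0/Q^(B s)`, `c1, T1` from `main_B` for `A + 1`, `δ`; `x = X/(2 T1)`, `thr = c min(1, L/log X)^K X/(log X)^m`, `c = c1/(8 T1)` or smaller.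
If the assertion is false for `U`, the hypothesis of `clq_box` holds for `H y := thr ≤ cm col X Q y`.  The families are `v (j,l) = Q V j l`, `G N = {Q y : y ∈ U^m (or y ∈ [1,L]^m), ¬ H y, N + Q y_i prime, all of one colour}`.
Lower bound: `main_B`; upper bound: `∑_N |G N| ≤ ∑_{y, ¬ H y} cm col X Q y ≤ L^m thr`.
-/

namespace Pool.Agent.H99.CA

open Finset Filter Pool.Agent.H61.UL

open Classical in
/-- number of the `N ≤ X` for which all `N + Q y_i` are primes of one colour -/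
noncomputable def cm {m r : ℕ} (col : ℕ → Fin r) (X Q : ℕ) (y : Fin m → ℕ) : ℕ :=
  ((Icc 1 X).filter fun N => ∀ i, (N + Q * y i).Prime ∧ ∀ j, col (N + Q * y i) = col (N + Q * y j)).card

open Classical in
/-- tuples `Q y`, `y ∈ D`, with primes of one colour at `N` -/
private noncomputable def smG {k r : ℕ} (col : ℕ → Fin r) (Q : ℕ) (D : Finset (Fin (k + 1) → ℕ)) (N : ℕ) :
    Finset (Fin (k + 1) → ℕ) :=
  (D.filter fun y => ∀ i, (N + Q * y i).Prime ∧ ∀ j, col (N + Q * y i) = col (N + Q * y j)).image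
    fun y i => Q * y i

private theorem sm_filt {α : Type} {s : Finset α} {p : α → Prop} {inst : DecidablePred p} {a : α}
    (h : a ∈ @Finset.filter α p inst s) : p a := (Finset.mem_filter.1 h).2

private theorem sum_smG {k r : ℕ} (col : ℕ → Fin r) (X Q : ℕ) (D : Finset (Fin (k + 1) → ℕ))
    (S : Finset ℕ) (hS : ∀ N ∈ S, 1 ≤ N ∧ N ≤ X) :
    ∑ N ∈ S, (smG col Q D N).card ≤ ∑ y ∈ D, cm col X Q y := by
  classical
  have h0 : ∀ N ∈ S, (smG col Q D N).card ≤ (D.filter fun y =>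
      ∀ i, (N + Q * y i).Prime ∧ ∀ j, col (N + Q * y i) = col (N + Q * y j)).card :=
    fun N _ => card_image_le
  refine (sum_le_sum h0).trans ?_
  rw [sum_congr rfl fun N _ => card_eq_sum_ones _]
  simp only [sum_filter]
  rw [sum_comm]
  refine sum_le_sum fun y _ => ?_
  rw [← sum_filter, ← card_eq_sum_ones]
  unfold cm
  refine card_le_card fun N hN => ?_
  rw [mem_filter] at hN ⊢
  exact ⟨mem_Icc.2 (hS N hN.1), hN.2⟩

open Classical in
theorem clq_small (hU : BlkU) (m r : ℕ) (hm : 1 ≤ m) (hr : 1 ≤ r) (ε : ℝ) (hε : 0 < ε) :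
    ∃ K Q0 : ℕ, 1 ≤ Q0 ∧ ∀ (Q : ℕ) (A : ℝ), 0 < Q → Q0 ∣ Q → 0 < A → ∃ (c : ℝ) (L0 X0 : ℕ), 0 < c ∧
      ∀ X : ℕ, X0 ≤ X → ∀ L : ℕ, L0 ≤ L → (L : ℝ) ≤ Real.log X ^ A → ∀ (col : ℕ → Fin r) (U : Finset ℕ),
      U ⊆ Icc 1 L → ε * L ≤ U.card → ∃ S : Finset ℕ, S ⊆ U ∧ (13 / (50 * r) - ε) * (U.card : ℝ) ≤ S.card ∧
        (((Fintype.piFinset fun _ : Fin m => S).filter fun y => (cm col X Q y : ℝ) <
          c * (min 1 ((L : ℝ) / Real.log X)) ^ K * (X / Real.log X ^ m)).card : ℝ) ≤ ε * (L : ℝ) ^ m := by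
  obtain ⟨k, rfl⟩ : ∃ k, m = k + 1 := ⟨m - 1, by omega⟩
  have hrr : (1 : ℝ) ≤ r := by exact_mod_cast hr
  obtain ⟨η, B, hη, hB, hbox0⟩ := clq_box (k + 1) hm (13 / (50 * r)) ε (by positivity)
    (by rw [div_le_one (by positivity)]; linarith) hε
  obtain ⟨e, he⟩ : ∃ e : ℝ, e = min (η / 2) (1 / 100) := ⟨_, rfl⟩
  have he0 : 0 < e := by
    rw [he]
    positivity
  have he1 : e ≤ 1 / 100 := by rw [he]; exact min_le_right _ _
  have heη : 2 * e ≤ η := by
    have : e ≤ η / 2 := by rw [he]; exact min_le_left _ _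
    linarith
  obtain ⟨s, hs, hmain⟩ := Pool.Agent.H61.UN.main_B hU e he0 he1 B k hB
  refine ⟨B * s - (k + 1), primorial (B * s), primorial_pos _, fun Q A hQ hQ0 hA => ?_⟩
  obtain ⟨δ0, hδ0, T0, hbox⟩ := hbox0 s hs
  have hQr : (1 : ℝ) ≤ Q := by exact_mod_cast hQ
  obtain ⟨δ, hδ⟩ : ∃ δ : ℝ, δ = δ0 / (Q : ℝ) ^ (B * s) := ⟨_, rfl⟩
  have hδ' : 0 < δ := by
    rw [hδ]
    positivity
  obtain ⟨c1, T1, lam1, hc1, hT1, hlam1, hev⟩ := hmain (A + 1) δ (by linarith) hδ'
  have hx : Tendsto (fun X : ℕ => (X : ℝ) / (2 * T1)) atTop atTop :=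
    (tendsto_natCast_atTop_atTop).atTop_div_const (by positivity)
  have hev1 := hx.eventually hev
  have hev2 := (tendsto_natCast_atTop_atTop (R := ℝ)).eventually
    (Pool.Agent.H61.GD.ev_two A T1 hA hT1 Q)
  obtain ⟨X0, hX0⟩ := eventually_atTop.1 (hev1.and hev2)
  refine ⟨c1 / (4 * T1), T0 + 1, max X0 1, by positivity, fun X hX L hL hLA col U hUL hUc => ?_⟩
  obtain ⟨hE1, hE2⟩ := hX0 X ((le_max_left _ _).trans hX)
  have hXpos : (0 : ℝ) < X := by
    have : 1 ≤ X := (le_max_right _ _).trans hX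
    exact_mod_cast this
  obtain ⟨hq1, hq2, hq3, hq4, hq5⟩ := hE2 L (Nat.cast_nonneg _) hLA
  obtain ⟨x, hxd⟩ : ∃ x : ℝ, x = (X : ℝ) / (2 * T1) := ⟨_, rfl⟩
  rw [← hxd] at hE1 hq1 hq2 hq3 hq4
  by_contra hcon
  push Not at hcon
  obtain ⟨thr, hthr⟩ : ∃ thr : ℝ, thr = c1 / (4 * T1) *
    (min 1 ((L : ℝ) / Real.log X)) ^ (B * s - (k + 1)) * (X / Real.log X ^ (k + 1)) := ⟨_, rfl⟩
  rw [← hthr] at hcon
  have hL1 : 1 ≤ L := by omega
  have hB2 := hbox L (by omega) U hUL hUc (fun y => thr ≤ (cm col X Q y : ℝ)) (by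
    intro S hS hSc
    have h1 := hcon S hS hSc
    refine lt_of_lt_of_le h1 (le_of_eq ?_)
    congr 2
    ext y
    rw [mem_filter, mem_filter, not_le])
  obtain ⟨VV, hVV⟩ : ∃ VV : Finset (Fin B → Fin s → Fin (L + 1)), VV =
      univ.filter (fun V : Fin B → Fin s → Fin (L + 1) =>
        (∀ i j i' j', V i j = V i' j' → i = i' ∧ j = j') ∧ (∀ i j, (V i j : ℕ) ∈ U) ∧
        ∀ E : Finset (Fin B), (13 / (50 * r) - η) * B ≤ E.card → ∀ φ : Fin B → Fin s,
          ∃ j : Fin (k + 1) → Fin B, (∀ i, j i ∈ E) ∧ Function.Injective j ∧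
            ¬ thr ≤ (cm col X Q (fun i => (V (j i) (φ (j i)) : ℕ)) : ℝ)) := ⟨_, rfl⟩
  rw [← hVV] at hB2
  obtain ⟨BB, hBB⟩ : ∃ BB : Finset (Fin B × Fin s → ℕ),
      BB = VV.image (fun V q => Q * (V q.1 q.2 : ℕ)) := ⟨_, rfl⟩
  have hBBcard : BB.card = VV.card := by
    rw [hBB]
    apply card_image_of_injective
    intro V V' h
    funext i j
    have h1 := congrFun h (i, j)
    simp only at h1
    exact Fin.ext (Nat.eq_of_mul_eq_mul_left hQ h1)
  obtain ⟨D, hD⟩ : ∃ D : Finset (Fin (k + 1) → ℕ), D = (Fintype.piFinset fun _ : Fin (k + 1) => U).filter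
      (fun y => ¬ thr ≤ (cm col X Q y : ℝ)) := ⟨_, rfl⟩
  have hUcard : U.card ≤ L := by
    have := card_le_card hUL
    rw [Nat.card_Icc] at this
    omega
  have hDcard : D.card ≤ L ^ (k + 1) := by
    rw [hD]
    refine (card_filter_le _ _).trans ?_
    rw [Fintype.card_piFinset, prod_const, card_univ, Fintype.card_fin]
    exact Nat.pow_le_pow_left hUcard _
  have hdata : ∀ v ∈ BB, ∃ V ∈ VV, ∀ q, v q = Q * (V q.1 q.2 : ℕ) := by
    intro v hv
    rw [hBB, mem_image] at hv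
    obtain ⟨V, hV, rfl⟩ := hv
    exact ⟨V, hV, fun q => rfl⟩
  have hVle : ∀ (V : Fin B → Fin s → Fin (L + 1)) i j, (V i j : ℕ) ≤ L := fun V i j => by
    have := (V i j).isLt
    omega
  have hle : ∀ v ∈ BB, ∀ q, v q ≤ Q * L := by
    intro v hv q
    obtain ⟨V, -, h⟩ := hdata v hv
    rw [h]
    exact Nat.mul_le_mul_left _ (hVle _ _ _)
  have hinj : ∀ v ∈ BB, Function.Injective v := by
    intro v hv q q' hqq
    obtain ⟨V, hV, h⟩ := hdata v hv
    have hV1 := hV
    rw [hVV] at hV1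
    have hV2 := sm_filt hV1
    replace hV := And.intro hV hV2
    rw [h, h] at hqq
    have h1 : V q.1 q.2 = V q'.1 q'.2 := Fin.ext (Nat.eq_of_mul_eq_mul_left hQ hqq)
    have h2 := hV.2.1 _ _ _ _ h1
    exact Prod.ext h2.1 h2.2
  have hDU : ∀ y ∈ D, ∀ i, 1 ≤ y i ∧ y i ≤ L := by
    intro y hy i
    rw [hD, mem_filter, Fintype.mem_piFinset] at hy
    exact mem_Icc.1 (hUL (hy.1 i))
  have key := hE1 (Q * L) (Nat.mul_pos hQ hL1) (by
      refine le_trans ?_ hq1
      push_cast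
      exact le_rfl) False (fun h => h.elim) BB (by
      intro v hv
      refine ⟨Pool.Agent.H61.UN.mem_IJ.2 ⟨hle v hv, hinj v hv⟩, ?_⟩
      intro p hp
      obtain ⟨V, hV, h⟩ := hdata v hv
      by_cases hpB : p ≤ B * s
      · refine ⟨1, fun q hq => ?_⟩
        have h1 : p ∣ Q := (hp.dvd_primorial_iff.2 hpB).trans hQ0
        rw [h] at hq
        have h2 : p ∣ 1 := (Nat.dvd_add_left (h1.mul_right _)).1 hq
        exact hp.one_lt.ne' (Nat.dvd_one.1 h2)
      · push Not at hpB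
        -- fewer than `p` residues
        obtain ⟨S, hS⟩ : ∃ S : Finset ℕ, S = univ.image (fun q : Fin B × Fin s => v q % p) :=
          ⟨_, rfl⟩
        have h1 : S.card < p := by
          rw [hS]
          refine lt_of_le_of_lt card_image_le ?_
          rw [card_univ, Fintype.card_prod, Fintype.card_fin, Fintype.card_fin]
          exact hpB
        obtain ⟨t, ht, ht'⟩ : ∃ t ∈ range p, t ∉ S := by
          by_contra hcon'
          push Not at hcon'
          have := card_le_card (fun t ht => hcon' t ht : range p ⊆ S)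
          rw [card_range] at this
          omega
        rw [mem_range] at ht
        refine ⟨p - t, fun q hq => ht' ?_⟩
        rw [hS, mem_image]
        refine ⟨q, mem_univ _, ?_⟩
        have h3 : (p - t + v q) + t ≡ 0 + t [MOD p] :=
          Nat.ModEq.add_right t ((Nat.modEq_zero_iff_dvd).2 hq)
        have h4 : (p - t + v q) + t = v q + p := by omega
        rw [h4, zero_add] at h3
        have h5 : v q + p ≡ v q [MOD p] := Nat.add_mod_right _ _
        have h6 : v q % p = t % p := h5.symm.trans h3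
        rw [h6, Nat.mod_eq_of_lt ht]) (by
      rw [hBBcard]
      refine le_trans (le_of_eq ?_) hB2
      rw [hδ]
      push_cast
      rw [mul_pow]
      field_simp) (smG col Q D) (by
      intro N _ rr hr' i
      unfold smG at hr'
      rw [mem_image] at hr'
      obtain ⟨y, hy, rfl⟩ := hr'
      rw [mem_filter] at hy
      exact ⟨Nat.mul_le_mul_left _ (hDU y hy.1 i).2, (hy.2 i).1⟩) (by
      intro v hv N _ hpc _
      obtain ⟨V, hV, h⟩ := hdata v hv
      have hV1 := hV
      rw [hVV] at hV1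
      have hV2 := sm_filt hV1
      replace hV := And.intro hV hV2
      obtain ⟨E0, hE0⟩ : ∃ E0 : Finset (Fin B), E0 =
        univ.filter (fun j : Fin B => ∃ l : Fin s, (N + v (j, l)).Prime) := ⟨_, rfl⟩
      have hE0c : (13 / 50 - 2 * e) * B ≤ E0.card := by
        have h1 : (Pool.Agent.H61.UN.pc v N : ℝ) = E0.card := by
          rw [hE0]
          rfl
        rw [← h1]
        exact hpc
      obtain ⟨φ, hφ0⟩ : ∃ φ : Fin B → Fin s, ∀ j ∈ E0, (N + v (j, φ j)).Prime := by
        have : ∀ j : Fin B, ∃ l : Fin s, j ∈ E0 → (N + v (j, l)).Prime := by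
          intro j
          by_cases hj : j ∈ E0
          · have h2 := hj
            rw [hE0, mem_filter] at h2
            obtain ⟨l, hl⟩ := h2.2
            exact ⟨l, fun _ => hl⟩
          · exact ⟨⟨0, hs⟩, fun h => absurd h hj⟩
        choose φ hφ using this
        exact ⟨φ, hφ⟩
      -- the most frequent colour
      obtain ⟨i0, hi0⟩ : ∃ i0 : Fin r, E0.card ≤ r *
          (E0.filter (fun j => col (N + v (j, φ j)) = i0)).card := by
        by_contra hcon'
        push Not at hcon'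
        have h1 : E0.card = ∑ i : Fin r, (E0.filter (fun j => col (N + v (j, φ j)) = i)).card :=
          card_eq_sum_card_fiberwise (fun j _ => mem_coe.2 (mem_univ _))
        have h2 : ∑ i : Fin r, r * (E0.filter (fun j => col (N + v (j, φ j)) = i)).card <
            ∑ _i : Fin r, E0.card :=
          sum_lt_sum_of_nonempty ⟨⟨0, hr⟩, mem_univ _⟩ fun i _ => hcon' i
        rw [← mul_sum, ← h1, sum_const, card_univ, Fintype.card_fin, smul_eq_mul] at h2
        exact lt_irrefl _ h2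
      obtain ⟨E, hE⟩ : ∃ E : Finset (Fin B), E =
        E0.filter (fun j => col (N + v (j, φ j)) = i0) := ⟨_, rfl⟩
      rw [← hE] at hi0
      have hEc : (13 / (50 * r) - η) * B ≤ E.card := by
        have h1 : (E0.card : ℝ) ≤ r * E.card := by exact_mod_cast hi0
        have h2 : (13 / 50 - 2 * e) * B ≤ r * E.card := hE0c.trans h1
        have h3 : (13 / (50 * r) - η) * B * r ≤ (13 / 50 - 2 * e) * B := by
          have e3 : (13 / (50 * r) - η) * B * r = (13 / 50 - η * r) * B := by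
            field_simp
          rw [e3]
          apply mul_le_mul_of_nonneg_right _ (Nat.cast_nonneg _)
          nlinarith
        have h4 : (13 / (50 * r) - η) * B * r ≤ E.card * r := by linarith
        exact le_of_mul_le_mul_right h4 (by linarith)
      have hφ : ∀ j ∈ E, (N + v (j, φ j)).Prime ∧ col (N + v (j, φ j)) = i0 := by
        intro j hj
        rw [hE, mem_filter] at hj
        exact ⟨hφ0 j hj.1, hj.2⟩
      obtain ⟨j, hj, hjinj, hbad⟩ := hV.2.2.2 E hEc φ
      refine ⟨fun i => (j i, φ (j i)), ?_, ?_⟩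
      · intro i i' hii
        simp only [Prod.mk.injEq] at hii
        exact hjinj hii.1
      · unfold smG
        rw [mem_image]
        refine ⟨fun i => (V (j i) (φ (j i)) : ℕ), ?_, ?_⟩
        · rw [mem_filter]
          refine ⟨?_, fun i => ?_⟩
          · rw [hD, mem_filter, Fintype.mem_piFinset]
            exact ⟨fun i => hV.2.2.1 _ _, hbad⟩
          · have h4 := hφ (j i) (hj i)
            rw [h] at h4
            refine ⟨h4.1, fun i' => ?_⟩
            have h5 := hφ (j i') (hj i')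
            rw [h] at h5
            exact h4.2.trans h5.2.symm
        · funext i
          simp only [Function.comp, h])
  -- upper bound
  have hTx0 : ∀ N ∈ (Pool.Agent.H92.MM.Tx x).filter (fun N : ℕ => (N : ℝ) ≤ T1 * x),
      1 ≤ N ∧ N ≤ X := by
    intro N hN
    rw [mem_filter, Pool.Agent.H92.MM.Tx, mem_Ioc] at hN
    have h1 : T1 * x = X / 2 := by
      rw [hxd]
      have : T1 ≠ 0 := by positivity
      field_simp
    have h2 : (N : ℝ) ≤ X / 2 := by rw [← h1]; exact hN.2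
    have h4 : (N : ℝ) ≤ X := by linarith
    have h5 : N ≤ X := by exact_mod_cast h4
    omega
  have hup := sum_smG col X Q D _ hTx0
  have hlX : 0 < Real.log X := by linarith
  have hthr0 : 0 ≤ thr := by
    rw [hthr]
    have : 0 ≤ min 1 ((L : ℝ) / Real.log X) := le_min zero_le_one (by positivity)
    positivity
  have hup2 : ((∑ N ∈ (Pool.Agent.H92.MM.Tx x).filter (fun N : ℕ => (N : ℝ) ≤ T1 * x),
      (smG col Q D N).card : ℕ) : ℝ) ≤ (L : ℝ) ^ (k + 1) * thr := by
    have h1 : ((∑ N ∈ (Pool.Agent.H92.MM.Tx x).filter (fun N : ℕ => (N : ℝ) ≤ T1 * x),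
        (smG col Q D N).card : ℕ) : ℝ) ≤ (∑ n ∈ D, cm col X Q n : ℕ) := by
      exact_mod_cast hup
    refine h1.trans ?_
    push_cast
    calc ∑ n ∈ D, (cm col X Q n : ℝ) ≤ ∑ _n ∈ D, thr := by
          apply sum_le_sum
          intro h hh
          rw [hD, mem_filter] at hh
          have := hh.2
          push Not at this
          exact this.le
      _ = D.card * thr := by rw [sum_const, nsmul_eq_mul]
      _ ≤ (L : ℝ) ^ (k + 1) * thr := mul_le_mul_of_nonneg_right (by exact_mod_cast hDcard) hthr0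
  push_cast at hup2 key
  have hkey2 := key.trans hup2
  have hLr : (1 : ℝ) ≤ L := by exact_mod_cast hL1
  have hQL : (L : ℝ) ≤ Q * L := by nlinarith
  obtain ⟨M, hM⟩ : ∃ M : ℝ, M = (min 1 ((L : ℝ) / Real.log X)) ^ (B * s - (k + 1)) := ⟨_, rfl⟩
  have hM0 : 0 < M := by
    rw [hM]
    have : 0 < min 1 ((L : ℝ) / Real.log X) := lt_min one_pos (by positivity)
    positivity
  have hmono : (L : ℝ) / Real.log X ≤ Q * L / Real.log x := by
    rw [div_le_div_iff₀ hlX hq3]
    exact mul_le_mul hQL hq4 hq3.le (by positivity)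
  have h1 : M ≤ (min 1 ((Q : ℝ) * L / Real.log x)) ^ (B * s - (k + 1)) := by
    rw [hM]
    apply pow_le_pow_left₀ (le_min zero_le_one (by positivity))
    exact min_le_min le_rfl hmono
  have h2 : ((L : ℝ) / Real.log X) ^ (k + 1) ≤ ((Q : ℝ) * L / Real.log x) ^ (k + 1) :=
    pow_le_pow_left₀ (by positivity) hmono _
  have hx0 : 0 ≤ x := by
    rw [hxd]
    positivity
  have h3 : c1 * x * ((L : ℝ) / Real.log X) ^ (k + 1) * M ≤
      c1 * x * ((Q : ℝ) * L / Real.log x) ^ (k + 1) *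
        (min 1 ((Q : ℝ) * L / Real.log x)) ^ (B * s - (k + 1)) := by
    apply mul_le_mul _ h1 hM0.le (by positivity)
    exact mul_le_mul_of_nonneg_left h2 (by positivity)
  have h4 := h3.trans hkey2
  rw [hthr, ← hM, hxd] at h4
  have e2 : Real.log X ≠ 0 := hlX.ne'
  have e1 : T1 ≠ 0 := by positivity
  have h5 : c1 * ((X : ℝ) / (2 * T1)) * ((L : ℝ) / Real.log X) ^ (k + 1) * M =
      2 * ((L : ℝ) ^ (k + 1) * (c1 / (4 * T1) * M * (X / Real.log X ^ (k + 1)))) := by
    rw [div_pow]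
    field_simp
    ring
  have h7 : 0 < (L : ℝ) ^ (k + 1) * (c1 / (4 * T1) * M * (X / Real.log X ^ (k + 1))) := by positivity
  rw [h5] at h4
  linarith

end Pool.Agent.H99.CA
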