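import Pool.Agent.H99.CA.Pie
import Pool.Agent.H99.CA.Many
import Pool.Agent.H99.CA.Half
import Pool.Agent.H99.CA.Prm
import Pool.Agent.H99.RO.Rl

/-!
[H99 CA TUP]  (Dense cliques at all scales, MP_8923e7_nt.)  The sample theorem.

Proof.  `η = ε/8`, `p = ε/8` (`ε ≤ 1` may be assumed: if `ε > 1` replace... the hypothesis for `ε` and `S = univ` gives `ε n^m < n^m`, so `ε < 1` or there is nothing to prove),
`M, b, e` from `prm m ε (ε/8) (ε/8)`, `t1` from `reg_lemma m e 1`, `k` with `m^2 ≤ (ε/8) k`, `k ≥ 8 (t1 + 1)/ε`, `k ≥ m`, `T = k + t1`, `n0` with `n ≥ n0` implies `w = ⌊n/T⌋ ≥ 1` and `k w ≥ (1 - ε/4) n`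
(`k w ≥ k (n/T - 1) = n (1 - t1/T) - k`).  `B = k b` (`Fin k × Fin b ≃ Fin B`, `finProdFinEquiv`).
Given `V`, `H`: `c` from `reg_lemma` for `ind H` (and the constant colouring), `P, π` from `pieces` with this `w` (`(k + t1) w ≤ n`).  Let `z ∈ Z` be one of the samples of `half`
and `|E| ≥ (ρ - η) B`.  `R = {g : η b ≤ |E_g|}`, `E_g = {a : (g, a) ∈ E}`: `|E| ≤ |R| b + k η b`, so `|R| ≥ (ρ - 2 η) k` and `S = ⋃_{g ∈ R} P g` has `|R| w ≥ (ρ - 2 η) k w ≥ (ρ - ε) n` elements
(`ρ ≤ 1`, `k w ≥ (1 - ε/4) n`; if `ρ - 2 η < 0` trivial).  By the hypothesis and `many`: more than `(ε/2) k^m` tuples `g ∈ R^m` satisfy `Dg`; so one of them is not `Full M H (z ∘ g)`: with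
the sets `E_(g j)` (`|E_(g j)| ≥ η b ≥ M`) there is `a` with `¬ H (fun j => z (g j) (a j))`.  `j ↦ (g j, a j)` is injective because `g` is.
Number of the samples: `|Z|/2 = ∏_g |cell (π g)|^b/2 ≥ w^B/2 ≥ (n/(2T))^B/2` (`w ≥ n/(2 T)` for `n ≥ 2 T`): `κ = (1/(2T))^B/2`.
-/

namespace Pool.Agent.H99.CA

open Finset Pool.Agent.H99.RO

/-- the numbers `k`, `T`, `n0` -/
private theorem par (m t1 : ℕ) (eps : ℝ) (heps : 0 < eps) : ∃ k n0 : ℕ, 1 ≤ k ∧ m ≤ k ∧
    (m : ℝ) ^ 2 ≤ eps / 8 * k ∧ ∀ n : ℕ, n0 ≤ n → ∃ w : ℕ, 1 ≤ w ∧ (k + t1) * w ≤ n ∧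
      (1 - eps / 4) * (n : ℝ) ≤ k * w ∧ (n : ℝ) ≤ w * (2 * ((k + t1 : ℕ) : ℝ)) := by
  obtain ⟨k, hk⟩ := exists_nat_ge (8 * ((m : ℝ) ^ 2 + t1 + 1) / eps)
  have hk' : 8 * ((m : ℝ) ^ 2 + t1 + 1) ≤ eps * k := by
    rw [div_le_iff₀ heps] at hk
    linarith
  obtain ⟨k2, hk2⟩ : ∃ k2 : ℕ, k2 = k + m + 1 := ⟨_, rfl⟩
  have hkk : (k : ℝ) ≤ k2 := by
    rw [hk2]
    push_cast
    have : (0 : ℝ) ≤ m := Nat.cast_nonneg _
    linarith
  have hk3 : 8 * ((m : ℝ) ^ 2 + t1 + 1) ≤ eps * k2 :=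
    hk'.trans (mul_le_mul_of_nonneg_left hkk heps.le)
  have ht0 : (0 : ℝ) ≤ t1 := Nat.cast_nonneg _
  have hm0 : (0 : ℝ) ≤ (m : ℝ) ^ 2 := by positivity
  obtain ⟨T, hT⟩ : ∃ T : ℕ, T = k2 + t1 := ⟨_, rfl⟩
  have hT0 : 0 < T := by omega
  have hTr : (0 : ℝ) < T := by exact_mod_cast hT0
  obtain ⟨n0, hn0⟩ := exists_nat_ge (8 * (T : ℝ) / eps)
  refine ⟨k2, n0 + 2 * T, by omega, by omega, by linarith, fun n hn => ?_⟩
  rw [← hT]
  have hnr : (n0 : ℝ) + 2 * T ≤ n := by exact_mod_cast hn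
  have h8 : 8 * (T : ℝ) ≤ eps * n := by
    rw [div_le_iff₀ heps] at hn0
    have : (n0 : ℝ) * eps ≤ n * eps := mul_le_mul_of_nonneg_right (by linarith) heps.le
    linarith
  have hw1 : T * (n / T) ≤ n := Nat.mul_div_le n T
  have hw2 : n < T * (n / T) + T := by
    have := Nat.lt_div_mul_add (a := n) (b := T) hT0
    rw [Nat.mul_comm] at this
    exact this
  obtain ⟨w, hw⟩ : ∃ w : ℕ, w = n / T := ⟨_, rfl⟩
  rw [← hw] at hw1 hw2
  have hw1r : (T : ℝ) * w ≤ n := by exact_mod_cast hw1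
  have hw2r : (n : ℝ) ≤ T * w + T := by exact_mod_cast hw2.le
  have hT2 : 2 * T ≤ n := by omega
  refine ⟨w, ?_, hw1, ?_, ?_⟩
  · rw [hw]
    exact Nat.div_pos (by omega) hT0
  · have hTk : (T : ℝ) = k2 + t1 := by
      rw [hT]
      push_cast
      ring
    have h9 : (t1 : ℝ) * w ≤ eps / 8 * n := by
      have h10 : (t1 : ℝ) ≤ eps / 8 * T := by
        rw [hTk]
        nlinarith
      calc (t1 : ℝ) * w ≤ eps / 8 * T * w := mul_le_mul_of_nonneg_right h10 (Nat.cast_nonneg _)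
        _ = eps / 8 * (T * w) := by ring
        _ ≤ _ := mul_le_mul_of_nonneg_left hw1r (by positivity)
    have h11 : (k2 : ℝ) * w = T * w - t1 * w := by
      rw [hTk]
      ring
    rw [h11]
    linarith
  · have : 2 * (T : ℝ) ≤ n := by exact_mod_cast hT2
    linarith

open Classical in
theorem clq_tup (m : ℕ) (hm : 1 ≤ m) (ρ eps : ℝ) (hρ : 0 < ρ) (hρ1 : ρ ≤ 1) (heps : 0 < eps) :
    ∃ (η κ : ℝ) (B n0 : ℕ), 0 < η ∧ 0 < κ ∧ m ≤ B ∧ ∀ (V : Type) [Fintype V], n0 ≤ Fintype.card V →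
      ∀ H : (Fin m → V) → Prop,
      (∀ S : Finset V, (ρ - eps) * (Fintype.card V : ℝ) ≤ S.card → eps * (Fintype.card V : ℝ) ^ m <
        (((Fintype.piFinset fun _ : Fin m => S).filter fun y => ¬ H y).card : ℝ)) →
      κ * (Fintype.card V : ℝ) ^ B ≤ ((univ.filter fun z : Fin B → V =>
        ∀ E : Finset (Fin B), (ρ - η) * B ≤ E.card → ∃ j : Fin m → Fin B, (∀ i, j i ∈ E) ∧
          Function.Injective j ∧ ¬ H (fun i => z (j i))).card : ℝ) := by
  rcases lt_or_ge 1 eps with heps1 | heps1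
  · refine ⟨1, 1, m, 0, one_pos, one_pos, le_rfl, fun V _ _ H hH => ?_⟩
    exfalso
    have h1 := hH univ (by
      rw [card_univ]
      have : (0 : ℝ) ≤ (Fintype.card V : ℝ) := Nat.cast_nonneg _
      nlinarith)
    have h2 : (((Fintype.piFinset fun _ : Fin m => (univ : Finset V)).filter fun y => ¬ H y).card : ℝ) ≤
        (Fintype.card V : ℝ) ^ m := by
      have h3 : ((Fintype.piFinset fun _ : Fin m => (univ : Finset V)).filter fun y => ¬ H y).card ≤
          (Fintype.card V) ^ m := by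
        refine (card_filter_le _ _).trans ?_
        rw [Fintype.card_piFinset]
        simp
      exact_mod_cast h3
    have h4 : (0 : ℝ) ≤ (Fintype.card V : ℝ) ^ m := by positivity
    nlinarith
  obtain ⟨M, b, e, hMp, hmM, hb, hMb, he, he1, hq⟩ :=
    prm m eps (eps / 8) (eps / 8) heps (by positivity) (by linarith) (by positivity)
  have : Fact M.Prime := ⟨hMp⟩
  obtain ⟨t1, hreg⟩ := reg_lemma m hm e he 1
  obtain ⟨k, n0, hk1, hmk, hmk2, hpar⟩ := par m t1 eps heps
  have hT0 : (0 : ℝ) < ((k + t1 : ℕ) : ℝ) := by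
    have : 0 < k + t1 := by omega
    exact_mod_cast this
  refine ⟨eps / 8, (1 / (2 * ((k + t1 : ℕ) : ℝ))) ^ (k * b) / 2, k * b, n0, by positivity,
    by positivity, hmk.trans (Nat.le_mul_of_pos_right _ hb), fun V _ hn H hH => ?_⟩
  obtain ⟨c, -, hirr⟩ := hreg V (ind H) (fun _ => 0) (ind_bd H)
  obtain ⟨w, hw, hwn, hwk, hwT⟩ := hpar _ hn
  obtain ⟨P, π, hPw, hPc, hPd⟩ := pieces t1 c w hw k hwn
  have hhalf := half m M hmM b eps e (eps / 8) heps he.le (by linarith) H c k hk1 π hq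
  obtain ⟨n, hnd⟩ : ∃ n : ℕ, n = Fintype.card V := ⟨_, rfl⟩
  have hbr : (0 : ℝ) < b := by exact_mod_cast hb
  have hkr : (0 : ℝ) < k := by exact_mod_cast hk1
  have hwr : (0 : ℝ) < w := by exact_mod_cast hw
  -- number of samples
  have hZ : (1 / (2 * ((k + t1 : ℕ) : ℝ))) ^ (k * b) / 2 * (Fintype.card V : ℝ) ^ (k * b) ≤
      ((Fintype.piFinset fun g : Fin k => Fintype.piFinset fun _ : Fin b => cell c (π g)).card : ℝ) / 2 := by
    have h1 : (w : ℝ) ^ (k * b) ≤
        ((Fintype.piFinset fun g : Fin k => Fintype.piFinset fun _ : Fin b => cell c (π g)).card : ℝ) := by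
      have h2 : w ^ (k * b) ≤
          (Fintype.piFinset fun g : Fin k => Fintype.piFinset fun _ : Fin b => cell c (π g)).card := by
        rw [Fintype.card_piFinset]
        calc w ^ (k * b) = ∏ _g : Fin k, w ^ b := by
              rw [prod_const, card_univ, Fintype.card_fin, ← pow_mul, Nat.mul_comm]
          _ ≤ _ := by
              apply prod_le_prod'
              intro g _
              rw [Fintype.card_piFinset_const]
              apply Nat.pow_le_pow_left
              rw [← hPw g]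
              exact card_le_card (hPc g)
      exact_mod_cast h2
    have h3 : (1 / (2 * ((k + t1 : ℕ) : ℝ))) ^ (k * b) * (Fintype.card V : ℝ) ^ (k * b) ≤
        (w : ℝ) ^ (k * b) := by
      rw [← mul_pow]
      apply pow_le_pow_left₀ (by positivity)
      rw [one_div, inv_mul_le_iff₀ (by positivity)]
      linarith
    calc (1 / (2 * ((k + t1 : ℕ) : ℝ))) ^ (k * b) / 2 * (Fintype.card V : ℝ) ^ (k * b) =
          (1 / (2 * ((k + t1 : ℕ) : ℝ))) ^ (k * b) * (Fintype.card V : ℝ) ^ (k * b) / 2 := by ring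
      _ ≤ _ := by linarith
  refine hZ.trans (hhalf.trans ?_)
  rw [Nat.cast_le]
  refine card_le_card_of_injOn (fun z q => z (finProdFinEquiv.symm q).1 (finProdFinEquiv.symm q).2) ?_ ?_
  swap
  · intro z _ z' _ h
    funext g a
    have h1 := congrFun h (finProdFinEquiv (g, a))
    simpa using h1
  intro z hz
  rw [mem_coe, mem_filter] at hz
  obtain ⟨-, hz⟩ := hz
  rw [mem_coe, mem_filter]
  refine ⟨mem_univ _, fun E hE => ?_⟩
  obtain ⟨Eg, hEg⟩ : ∃ Eg : Fin k → Finset (Fin b), ∀ g,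
      Eg g = univ.filter (fun a : Fin b => finProdFinEquiv (g, a) ∈ E) := ⟨_, fun _ => rfl⟩
  have hsum : ∑ g, (Eg g).card = E.card := by
    rw [← card_sigma]
    refine card_bij (fun q _ => finProdFinEquiv (q.1, q.2)) ?_ ?_ ?_
    · rintro ⟨g, a⟩ hq
      rw [mem_sigma] at hq
      have := hq.2
      rw [hEg, mem_filter] at this
      exact this.2
    · rintro ⟨g, a⟩ _ ⟨g', a'⟩ _ h
      have h1 := finProdFinEquiv.injective h
      simp only [Prod.mk.injEq] at h1
      rw [h1.1, h1.2]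
    · intro q hq
      obtain ⟨⟨g, a⟩, rfl⟩ := finProdFinEquiv.surjective q
      refine ⟨⟨g, a⟩, ?_, rfl⟩
      rw [mem_sigma]
      refine ⟨mem_univ _, ?_⟩
      rw [hEg, mem_filter]
      exact ⟨mem_univ _, hq⟩
  obtain ⟨R, hR⟩ : ∃ R : Finset (Fin k), R = univ.filter (fun g => eps / 8 * b ≤ ((Eg g).card : ℝ)) :=
    ⟨_, rfl⟩
  have hRcard : (ρ - 2 * (eps / 8)) * k ≤ (R.card : ℝ) := by
    have h1 : (E.card : ℝ) ≤ R.card * b + k * (eps / 8 * b) := by
      rw [← hsum]
      push_cast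
      rw [← sum_filter_add_sum_filter_not univ (fun g => eps / 8 * b ≤ ((Eg g).card : ℝ))]
      apply add_le_add
      · rw [← hR]
        calc ∑ g ∈ R, ((Eg g).card : ℝ) ≤ ∑ _g ∈ R, (b : ℝ) := by
              apply sum_le_sum
              intro g _
              have := card_le_univ (Eg g)
              rw [Fintype.card_fin] at this
              exact_mod_cast this
          _ = R.card * b := by rw [sum_const, nsmul_eq_mul]
      · calc ∑ g ∈ univ.filter (fun g => ¬ eps / 8 * b ≤ ((Eg g).card : ℝ)), ((Eg g).card : ℝ) ≤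
              ∑ _g ∈ univ.filter (fun g => ¬ eps / 8 * b ≤ ((Eg g).card : ℝ)), (eps / 8 * b : ℝ) := by
              apply sum_le_sum
              intro g hg
              have := (mem_filter.1 hg).2
              push Not at this
              exact this.le
          _ ≤ k * (eps / 8 * b) := by
              rw [sum_const, nsmul_eq_mul]
              apply mul_le_mul_of_nonneg_right _ (by positivity)
              have := card_filter_le (univ : Finset (Fin k)) (fun g => ¬ eps / 8 * b ≤ ((Eg g).card : ℝ))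
              rw [card_univ, Fintype.card_fin] at this
              exact_mod_cast this
    push_cast at hE
    have h2 : ((ρ - 2 * (eps / 8)) * k) * b ≤ R.card * b := by nlinarith
    exact le_of_mul_le_mul_right h2 hbr
  have hScard : ((R.biUnion P).card : ℝ) = R.card * w := by
    rw [card_biUnion (fun g _ g' _ h => hPd g g' h), sum_congr rfl (fun g _ => hPw g), sum_const,
      smul_eq_mul]
    push_cast
    ring
  have hSbig : (ρ - eps) * (Fintype.card V : ℝ) ≤ ((R.biUnion P).card : ℝ) := by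
    rw [hScard]
    have hn0 : (0 : ℝ) ≤ (Fintype.card V : ℝ) := Nat.cast_nonneg _
    rcases le_or_gt (ρ - eps) 0 with h | h
    · exact (mul_nonpos_of_nonpos_of_nonneg h hn0).trans (by positivity)
    · have h1 : (ρ - 2 * (eps / 8)) * k * w ≤ R.card * w :=
        mul_le_mul_of_nonneg_right hRcard hwr.le
      have h2 : (ρ - 2 * (eps / 8)) * ((1 - eps / 4) * (Fintype.card V : ℝ)) ≤
          (ρ - 2 * (eps / 8)) * (k * w) := mul_le_mul_of_nonneg_left hwk (by linarith)
      have h3 : (ρ - eps) ≤ (ρ - 2 * (eps / 8)) * (1 - eps / 4) := by nlinarith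
      have h4 := mul_le_mul_of_nonneg_right h3 hn0
      nlinarith
  have hmany := many m hm eps e (eps / 8) he.le he1 (by positivity) le_rfl H c hirr k w hw P π hPw
    hPc hPd hmk2 R (hH _ hSbig)
  obtain ⟨g, hg, hgF⟩ : ∃ g ∈ (Fintype.piFinset fun _ : Fin m => R).filter
      (fun g => Dg e (eps / 8) H c π g), ¬ Full M H (fun j => z (g j)) := by
    by_contra hcon
    push Not at hcon
    have h1 : ((Fintype.piFinset fun _ : Fin m => R).filter (fun g => Dg e (eps / 8) H c π g)) ⊆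
        univ.filter (fun g : Fin m → Fin k => Dg e (eps / 8) H c π g ∧
          Full M H (fun j => z (g j))) := by
      intro g hg
      rw [mem_filter]
      exact ⟨mem_univ _, (mem_filter.1 hg).2, hcon g hg⟩
    have h2 : (((Fintype.piFinset fun _ : Fin m => R).filter
        (fun g => Dg e (eps / 8) H c π g)).card : ℝ) ≤ _ := Nat.cast_le.2 (card_le_card h1)
    linarith
  rw [mem_filter, Fintype.mem_piFinset] at hg
  obtain ⟨hgR, hginj, -, -⟩ := hg
  unfold Full at hgF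
  push Not at hgF
  obtain ⟨a, ha, haH⟩ := hgF (fun j => Eg (g j)) (fun j => by
    have h1 := hgR j
    rw [hR, mem_filter] at h1
    have h2 := hMb.trans h1.2
    exact_mod_cast h2)
  refine ⟨fun j => finProdFinEquiv (g j, a j), fun j => ?_, ?_, ?_⟩
  · have h1 := ha j
    rw [hEg, mem_filter] at h1
    exact h1.2
  · intro j j' h
    have h1 := finProdFinEquiv.injective h
    simp only [Prod.mk.injEq] at h1
    exact hginj h1.1
  · simpa using haH

end Pool.Agent.H99.CA
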